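import Pool.Agent.Q85.ND.Up3

/-! From all configurations to centred configurations. -/

set_option autoImplicit false

open MeasureTheory ENNReal Set Metric
open Pool.Agent.Y516.NW (pot kin mom NonW Surf IsFl Free Cfg P2)

namespace Pool.Agent.Q85.ND

/-- the centred configuration with the positions `Q` of the first `n` bodies -/
noncomputable def cfg {n : ℕ} (m : Fin (n + 1) → ℝ) (Q : Fin n → R3) : Fin (n + 1) → R3 :=
  Fin.snoc Q (-(m (Fin.last n))⁻¹ • ∑ i, m i.castSucc • Q i)

variable {n : ℕ} (m : Fin (n + 1) → ℝ)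

theorem cfg_castSucc (Q : Fin n → R3) (i : Fin n) : cfg m Q i.castSucc = Q i := by
  simp [cfg]

theorem cfg_last (Q : Fin n → R3) : cfg m Q (Fin.last n) = -(m (Fin.last n))⁻¹ • ∑ i, m i.castSucc • Q i := by
  simp [cfg]

theorem cfg_sum (hm : ∀ i, 0 < m i) (Q : Fin n → R3) : ∑ i, m i • cfg m Q i = 0 := by
  rw [Fin.sum_univ_castSucc]
  simp only [cfg_castSucc, cfg_last]
  rw [smul_smul, mul_neg, mul_inv_cancel₀ (hm _).ne', neg_smul, one_smul, add_neg_cancel]

theorem cfg_cont : Continuous (cfg m) := by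
  refine continuous_pi fun i => ?_
  refine Fin.lastCases ?_ (fun j => ?_) i
  · simp only [cfg_last]
    fun_prop
  · simp only [cfg_castSucc]
    fun_prop

theorem ctr_add (hm : ∀ i, 0 < m i) (q : Fin (n + 1) → R3) (x : R3) : ctr m (fun i => q i + x) = ctr m q + x := by
  have hM : 0 < ∑ i, m i := Finset.sum_pos (fun i _ => hm i) ⟨0, Finset.mem_univ 0⟩
  simp only [ctr, smul_add, Finset.sum_add_distrib, ← Finset.sum_smul]
  rw [smul_smul, inv_mul_cancel₀ hM.ne', one_smul]

theorem ctr_cfg (hm : ∀ i, 0 < m i) (Q : Fin n → R3) : ctr m (cfg m Q) = 0 := by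
  rw [ctr, cfg_sum m hm, smul_zero]

/-- the linear isomorphism from pairs (translation, positions of the first `n` bodies) to configurations -/
noncomputable def LL (hm : ∀ i, 0 < m i) : (R3 × (Fin n → R3)) ≃ₗ[ℝ] (Fin (n + 1) → R3) where
  toFun z := fun i => cfg m z.2 i + z.1
  invFun q := (ctr m q, fun i => q i.castSucc - ctr m q)
  map_add' z w := by
    funext i
    refine Fin.lastCases ?_ (fun j => ?_) i
    · simp only [cfg_last, Prod.snd_add, Prod.fst_add, Pi.add_apply, smul_add, Finset.sum_add_distrib]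
      abel
    · simp only [cfg_castSucc, Prod.snd_add, Prod.fst_add, Pi.add_apply]
      abel
  map_smul' c z := by
    funext i
    refine Fin.lastCases ?_ (fun j => ?_) i
    · simp only [cfg_last, Prod.smul_snd, Prod.smul_fst, Pi.smul_apply, RingHom.id_apply, smul_add]
      congr 1
      rw [Finset.smul_sum, Finset.smul_sum, Finset.smul_sum]
      refine Finset.sum_congr rfl fun j _ => ?_
      simp only [smul_smul]
      congr 1
      ring
    · simp only [cfg_castSucc, Prod.smul_snd, Prod.smul_fst, Pi.smul_apply, RingHom.id_apply, smul_add]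
  left_inv z := by
    have h1 : ctr m (fun i => cfg m z.2 i + z.1) = z.1 := by
      rw [ctr_add m hm, ctr_cfg m hm, zero_add]
    refine Prod.ext h1 ?_
    funext i
    simp only [h1, cfg_castSucc]
    abel
  right_inv q := by
    funext i
    refine Fin.lastCases ?_ (fun j => ?_) i
    · have hM : 0 < ∑ i, m i := Finset.sum_pos (fun i _ => hm i) ⟨0, Finset.mem_univ 0⟩
      have h1 := ctr_zero m hM q
      rw [Fin.sum_univ_castSucc, add_eq_zero_iff_eq_neg] at h1
      simp only [cfg_last]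
      rw [h1, neg_smul, smul_neg, neg_neg, smul_smul, inv_mul_cancel₀ (hm _).ne', one_smul, sub_add_cancel]
    · simp only [cfg_castSucc]
      abel

theorem ctr_norm (hm : ∀ i, 0 < m i) (q : Fin (n + 1) → R3) (R : ℝ) (h : ∀ i, ‖q i‖ ≤ R) : ‖ctr m q‖ ≤ R := by
  have hM : 0 < ∑ i, m i := Finset.sum_pos (fun i _ => hm i) ⟨0, Finset.mem_univ 0⟩
  rw [ctr, norm_smul, norm_inv, Real.norm_of_nonneg hM.le, inv_mul_le_iff₀ hM, Finset.sum_mul]
  refine (norm_sum_le _ _).trans (Finset.sum_le_sum fun i _ => ?_)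
  rw [norm_smul, Real.norm_of_nonneg (hm i).le]
  exact mul_le_mul_of_nonneg_left (h i) (hm i).le

/-- integrals of translation invariant functions over all, and over centred configurations -/
theorem transfer (hm : ∀ i, 0 < m i) : ∃ c : ℝ≥0∞, c ≠ 0 ∧ c ≠ ⊤ ∧
    ∀ G : (Fin (n + 1) → R3) → ℝ≥0∞, Measurable G → (∀ q x, G (fun i => q i + x) = G q) → ∀ R : ℝ,
      volume (closedBall (0 : R3) R) * ∫⁻ Q in {Q | ∀ i, ‖cfg m Q i‖ ≤ R}, G (cfg m Q) ≤
        c * ∫⁻ q in {q | ∀ i, ‖q i‖ ≤ 2 * R}, G q ∧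
      c * ∫⁻ q in {q | ∀ i, ‖q i‖ ≤ R}, G q ≤
        volume (closedBall (0 : R3) R) * ∫⁻ Q in {Q | ∀ i, ‖cfg m Q i‖ ≤ 2 * R}, G (cfg m Q) := by
  set L := (LL m hm).toContinuousLinearEquiv with hL
  have hvol : Measure.IsAddHaarMeasure (volume : Measure (R3 × (Fin n → R3))) :=
    Measure.prod.instIsAddHaarMeasure _ _
  have hhaar : Measure.IsAddHaarMeasure (Measure.map L (volume : Measure (R3 × (Fin n → R3)))) :=
    ContinuousLinearEquiv.isAddHaarMeasure_map L volume
  obtain ⟨c, hc0, hct, hc⟩ : ∃ c : ℝ≥0∞, c ≠ 0 ∧ c ≠ ⊤ ∧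
      Measure.map L (volume : Measure (R3 × (Fin n → R3))) = c • (volume : Measure (Fin (n + 1) → R3)) := by
    have h1 := Measure.isAddLeftInvariant_eq_smul
      (Measure.map L (volume : Measure (R3 × (Fin n → R3)))) (volume : Measure (Fin (n + 1) → R3))
    have h2 := Measure.addHaarScalarFactor_pos_of_isAddHaarMeasure
      (Measure.map L (volume : Measure (R3 × (Fin n → R3)))) (volume : Measure (Fin (n + 1) → R3))
    exact ⟨_, ENNReal.coe_ne_zero.mpr h2.ne', ENNReal.coe_ne_top, h1⟩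
  refine ⟨c, hc0, hct, fun G hG hinv R => ?_⟩
  have hLapp : ∀ z : R3 × (Fin n → R3), L z = fun i => cfg m z.2 i + z.1 := fun z => rfl
  have hbox : ∀ ρ : ℝ, MeasurableSet {q : Fin (n + 1) → R3 | ∀ i, ‖q i‖ ≤ ρ} := by
    intro ρ
    have : {q : Fin (n + 1) → R3 | ∀ i, ‖q i‖ ≤ ρ} = ⋂ i, {q : Fin (n + 1) → R3 | ‖q i‖ ≤ ρ} := by ext z; simp
    rw [this]
    exact MeasurableSet.iInter fun i => measurableSet_le (by fun_prop) measurable_const
  have hcm : Measurable (cfg m) := (cfg_cont m).measurable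
  have hboxc : ∀ ρ : ℝ, MeasurableSet {Q : Fin n → R3 | ∀ i, ‖cfg m Q i‖ ≤ ρ} := fun ρ => hcm (hbox ρ)
  -- the change of variables
  have key : ∀ ρ : ℝ, c * ∫⁻ q in {q | ∀ i, ‖q i‖ ≤ ρ}, G q =
      ∫⁻ Q : Fin n → R3, ∫⁻ x : R3, indicator {q : Fin (n + 1) → R3 | ∀ i, ‖q i‖ ≤ ρ} G (fun i => cfg m Q i + x) := by
    intro ρ
    have hF : Measurable (indicator {q : Fin (n + 1) → R3 | ∀ i, ‖q i‖ ≤ ρ} G) := hG.indicator (hbox ρ)
    rw [← lintegral_indicator (hbox ρ), ← smul_eq_mul, ← lintegral_smul_measure, ← hc,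
      lintegral_map hF L.continuous.measurable, Measure.volume_eq_prod, lintegral_prod_symm']
    · rfl
    · exact hF.comp L.continuous.measurable
  -- the product
  have prod : ∀ ρ : ℝ, volume (closedBall (0 : R3) R) * ∫⁻ Q in {Q | ∀ i, ‖cfg m Q i‖ ≤ ρ}, G (cfg m Q) =
      ∫⁻ Q : Fin n → R3, ∫⁻ x : R3, indicator {Q : Fin n → R3 | ∀ i, ‖cfg m Q i‖ ≤ ρ} (fun Q => G (cfg m Q)) Q *
        indicator (closedBall (0 : R3) R) 1 x := by
    intro ρ
    rw [← lintegral_indicator (hboxc ρ), mul_comm]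
    have hm1 : Measurable (indicator {Q : Fin n → R3 | ∀ i, ‖cfg m Q i‖ ≤ ρ} (fun Q => G (cfg m Q))) :=
      (hG.comp hcm).indicator (hboxc ρ)
    rw [← lintegral_mul_const _ hm1]
    refine lintegral_congr fun Q => ?_
    rw [lintegral_const_mul _ (measurable_one.indicator measurableSet_closedBall),
      lintegral_indicator_one measurableSet_closedBall]
  constructor
  · rw [key, prod]
    refine lintegral_mono fun Q => lintegral_mono fun x => ?_
    by_cases hQ : Q ∈ {Q : Fin n → R3 | ∀ i, ‖cfg m Q i‖ ≤ R}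
    · by_cases hx : x ∈ closedBall (0 : R3) R
      · have h1 : (fun i => cfg m Q i + x) ∈ {q : Fin (n + 1) → R3 | ∀ i, ‖q i‖ ≤ 2 * R} := by
          intro i
          have h2 := hQ i
          rw [mem_closedBall_zero_iff] at hx
          have h3 := norm_add_le (cfg m Q i) x
          linarith
        rw [indicator_of_mem h1, indicator_of_mem hQ, indicator_of_mem hx, hinv, Pi.one_apply, mul_one]
      · rw [indicator_of_notMem hx, mul_zero]
        exact zero_le
    · rw [indicator_of_notMem hQ, zero_mul]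
      exact zero_le
  · rw [key, prod]
    refine lintegral_mono fun Q => lintegral_mono fun x => ?_
    by_cases h1 : (fun i => cfg m Q i + x) ∈ {q : Fin (n + 1) → R3 | ∀ i, ‖q i‖ ≤ R}
    · have h2 : ctr m (fun i => cfg m Q i + x) = x := by rw [ctr_add m hm, ctr_cfg m hm, zero_add]
      have h3 : ‖x‖ ≤ R := by
        have := ctr_norm m hm _ R h1
        rwa [h2] at this
      have hx : x ∈ closedBall (0 : R3) R := mem_closedBall_zero_iff.mpr h3
      have hQ : Q ∈ {Q : Fin n → R3 | ∀ i, ‖cfg m Q i‖ ≤ 2 * R} := by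
        intro i
        have h4 : ‖cfg m Q i + x‖ ≤ R := h1 i
        have h5 : ‖cfg m Q i‖ ≤ ‖cfg m Q i + x‖ + ‖x‖ := by
          calc ‖cfg m Q i‖ = ‖(cfg m Q i + x) - x‖ := by rw [add_sub_cancel_right]
            _ ≤ _ := norm_sub_le _ _
        linarith
      rw [indicator_of_mem h1, indicator_of_mem hQ, indicator_of_mem hx, hinv, Pi.one_apply, mul_one]
    · rw [indicator_of_notMem h1]
      exact zero_le

end Pool.Agent.Q85.ND
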