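import Mathlib

/-! Integrals of functions of two differences over boxes of configurations. -/

set_option autoImplicit false

open MeasureTheory ENNReal Set Metric

namespace Pool.Agent.Q85.ND

/-- space -/
abbrev R3 := EuclideanSpace ℝ (Fin 3)

/-- one coordinate at a time -/
theorem fub {n : ℕ} (i : Fin (n + 1)) (F : (Fin (n + 1) → R3) → ℝ≥0∞) (hF : Measurable F) :
    ∫⁻ q, F q = ∫⁻ y : Fin n → R3, ∫⁻ x : R3, F (i.insertNth x y) := by
  have h := (volume_preserving_piFinSuccAbove (fun _ : Fin (n + 1) => R3) i).symm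
  rw [← h.lintegral_comp hF, Measure.volume_eq_prod, lintegral_prod_symm']
  · rfl
  · exact hF.comp (MeasurableEquiv.measurable _)

/-- the indicator function of a ball -/
noncomputable def B (R : ℝ) : R3 → ℝ≥0∞ := indicator (closedBall 0 R) 1

theorem B_meas (R : ℝ) : Measurable (B R) :=
  measurable_one.indicator measurableSet_closedBall

theorem prodB {n : ℕ} (R : ℝ) : ∫⁻ z : Fin n → R3, ∏ i, B R (z i) = volume (closedBall (0 : R3) R) ^ n := by
  have h : (fun z : Fin n → R3 => ∏ i, B R (z i)) =
      indicator (Set.pi univ fun _ : Fin n => closedBall (0 : R3) R) 1 := by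
    funext z
    by_cases hz : z ∈ Set.pi univ fun _ : Fin n => closedBall (0 : R3) R
    · rw [indicator_of_mem hz]
      exact Finset.prod_eq_one fun i _ => by rw [B, indicator_of_mem (hz i (mem_univ i))]; rfl
    · rw [indicator_of_notMem hz]
      simp only [Set.mem_pi, mem_univ, forall_true_left, not_forall] at hz
      obtain ⟨i, hi⟩ := hz
      exact Finset.prod_eq_zero (Finset.mem_univ i) (by rw [B, indicator_of_notMem hi])
  rw [h, lintegral_indicator_one (MeasurableSet.univ_pi fun _ => measurableSet_closedBall), volume_pi_pi]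
  simp

/-- two pairs, not the same: the integral of a product of a function of one difference and a function
of the other one -/
theorem pair_le {n : ℕ} (a b k l : Fin (n + 2)) (hab : a ≠ b) (hka : k ≠ a) (hkb : k ≠ b)
    (hkl : k ≠ l) (h g : R3 → ℝ≥0∞) (hh : Measurable h) (hg : Measurable g) (R : ℝ) :
    ∫⁻ q : Fin (n + 2) → R3, (∏ i, B R (q i)) * (h (q a - q b) * g (q k - q l)) ≤
      (∫⁻ x in closedBall 0 (2 * R), g x) * ((∫⁻ x, h x) * volume (closedBall (0 : R3) R) ^ n) := by
  have hBm := B_meas R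
  obtain ⟨a', rfl⟩ := Fin.exists_succAbove_eq hka.symm
  obtain ⟨b', rfl⟩ := Fin.exists_succAbove_eq hkb.symm
  obtain ⟨l', rfl⟩ := Fin.exists_succAbove_eq hkl.symm
  have hab' : a' ≠ b' := fun h => hab (by rw [h])
  rw [fub k _ (by fun_prop)]
  set J : ℝ≥0∞ := ∫⁻ x in closedBall 0 (2 * R), g x with hJ
  have h1 : ∀ y : Fin (n + 1) → R3, ∫⁻ x : R3, (∏ i, B R ((k.insertNth x y : Fin (n + 2) → R3) i)) *
      (h ((k.insertNth x y : Fin (n + 2) → R3) (k.succAbove a') -
        (k.insertNth x y : Fin (n + 2) → R3) (k.succAbove b')) *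
        g ((k.insertNth x y : Fin (n + 2) → R3) k - (k.insertNth x y : Fin (n + 2) → R3) (k.succAbove l'))) ≤
      J * ((∏ i, B R (y i)) * h (y a' - y b')) := by
    intro y
    simp only [Fin.insertNth_apply_succAbove, Fin.insertNth_apply_same, Fin.prod_univ_succAbove _ k]
    by_cases hy : y l' ∈ closedBall (0 : R3) R
    · have h2 : ∀ x : R3, B R x * (∏ i, B R (y i)) * (h (y a' - y b') * g (x - y l')) ≤
          ((∏ i, B R (y i)) * h (y a' - y b')) * (indicator (closedBall 0 (2 * R)) g (x - y l')) := by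
        intro x
        by_cases hx : x ∈ closedBall (0 : R3) R
        · have h3 : x - y l' ∈ closedBall (0 : R3) (2 * R) := by
            rw [mem_closedBall_zero_iff] at *
            linarith [norm_sub_le x (y l')]
          rw [indicator_of_mem h3, B, indicator_of_mem hx]
          simp only [Pi.one_apply, one_mul]
          rw [mul_assoc]
        · rw [B, indicator_of_notMem hx]
          simp
      refine (lintegral_mono h2).trans ?_
      rw [lintegral_const_mul _ (by
        exact (hg.indicator measurableSet_closedBall).comp (measurable_id.sub_const _)),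
        lintegral_sub_right_eq_self (fun x => indicator (closedBall 0 (2 * R)) g x) (y l'),
        lintegral_indicator measurableSet_closedBall, mul_comm]
    · have h2 : ∏ i, B R (y i) = 0 :=
        Finset.prod_eq_zero (Finset.mem_univ l') (by rw [B, indicator_of_notMem hy])
      simp [h2]
  refine (lintegral_mono h1).trans ?_
  rw [lintegral_const_mul _ (by fun_prop)]
  gcongr
  obtain ⟨b'', rfl⟩ := Fin.exists_succAbove_eq hab'.symm
  rw [fub a' _ (by fun_prop)]
  have h4 : ∀ z : Fin n → R3, ∫⁻ x : R3, (∏ i, B R ((a'.insertNth x z : Fin (n + 1) → R3) i)) *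
      h ((a'.insertNth x z : Fin (n + 1) → R3) a' - (a'.insertNth x z : Fin (n + 1) → R3) (a'.succAbove b'')) ≤
      (∫⁻ x, h x) * ∏ i, B R (z i) := by
    intro z
    simp only [Fin.insertNth_apply_succAbove, Fin.insertNth_apply_same, Fin.prod_univ_succAbove _ a']
    have h2 : ∀ x : R3, B R x * (∏ i, B R (z i)) * h (x - z b'') ≤
        (∏ i, B R (z i)) * h (x - z b'') := by
      intro x
      gcongr
      have : B R x ≤ 1 := by
        rw [B]
        exact indicator_le_self' (fun _ _ => zero_le) x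
      calc B R x * (∏ i, B R (z i)) ≤ 1 * (∏ i, B R (z i)) := by gcongr
        _ = _ := one_mul _
    refine (lintegral_mono h2).trans ?_
    rw [lintegral_const_mul _ (by fun_prop), lintegral_sub_right_eq_self (fun x => h x) (z b''), mul_comm]
  refine (lintegral_mono h4).trans ?_
  rw [lintegral_const_mul _ (by fun_prop), prodB]

/-- the integral of `|x| ^ (-3/2)` over a ball -/
theorem three_halves : ∃ c : ℝ, 0 < c ∧ ∀ R : ℝ, 0 < R →
    ∫⁻ x in closedBall (0 : R3) (2 * R), ENNReal.ofReal (‖x‖ ^ (-(3 / 2) : ℝ)) ≤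
      ENNReal.ofReal (c * R ^ (3 / 2 : ℝ)) := by
  set I : ℝ≥0∞ := ∫⁻ x in closedBall (0 : R3) 2, ENNReal.ofReal (‖x‖ ^ (-(3 / 2) : ℝ)) with hI
  have hm : Measurable fun x : R3 => ‖x‖ ^ (-(3 / 2) : ℝ) := by fun_prop
  have hfin : I < ⊤ := by
    have h1 : IntegrableOn (fun x : R3 => ‖x‖ ^ (-(3 / 2) : ℝ)) (ball 0 3) := by
      refine integrableOn_ball_of_norm_le_rpow (C := 1) (α := 3 / 2) (by simp) (by norm_num [finrank_euclideanSpace]) ?_
        hm.aestronglyMeasurable
      filter_upwards with x
      rw [Real.norm_of_nonneg (by positivity), one_mul]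
    have h2 := (h1.mono_set (closedBall_subset_ball (by norm_num : (2 : ℝ) < 3))).lintegral_lt_top
    exact h2
  refine ⟨I.toReal + 1, by positivity, fun R hR => ?_⟩
  have h3 : ∫⁻ x in closedBall (0 : R3) (2 * R), ENNReal.ofReal (‖x‖ ^ (-(3 / 2) : ℝ)) =
      ENNReal.ofReal (R ^ (3 / 2 : ℝ)) * I := by
    have e1 := Measure.map_addHaar_smul (volume : Measure R3) (inv_ne_zero hR.ne')
    have e2 : ∫⁻ x in closedBall (0 : R3) (2 * R), ENNReal.ofReal (‖x‖ ^ (-(3 / 2) : ℝ)) =
        ∫⁻ x : R3, ENNReal.ofReal (R ^ (-(3 / 2) : ℝ)) *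
          indicator (closedBall (0 : R3) 2) (fun x => ENNReal.ofReal (‖x‖ ^ (-(3 / 2) : ℝ))) (R⁻¹ • x) := by
      rw [← lintegral_indicator measurableSet_closedBall]
      refine lintegral_congr fun x => ?_
      have e3 : (R⁻¹ • x ∈ closedBall (0 : R3) 2) ↔ x ∈ closedBall (0 : R3) (2 * R) := by
        rw [mem_closedBall_zero_iff, mem_closedBall_zero_iff, norm_smul, Real.norm_of_nonneg (by positivity),
          inv_mul_le_iff₀ hR, mul_comm]
      by_cases hx : x ∈ closedBall (0 : R3) (2 * R)
      · rw [indicator_of_mem hx, indicator_of_mem (e3.mpr hx), ← ENNReal.ofReal_mul (by positivity)]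
        congr 1
        rw [norm_smul, Real.norm_of_nonneg (by positivity), Real.mul_rpow (by positivity) (norm_nonneg x),
          Real.inv_rpow hR.le, ← mul_assoc, mul_inv_cancel₀ (by positivity), one_mul]
      · rw [indicator_of_notMem hx, indicator_of_notMem (fun h => hx (e3.mp h)), mul_zero]
    rw [e2, lintegral_const_mul _ (by
      exact (hm.ennreal_ofReal.indicator measurableSet_closedBall).comp (measurable_const_smul _))]
    have e4 : ∫⁻ x : R3, indicator (closedBall (0 : R3) 2) (fun x => ENNReal.ofReal (‖x‖ ^ (-(3 / 2) : ℝ))) (R⁻¹ • x) =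
        ENNReal.ofReal (R ^ 3) * I := by
      rw [← lintegral_map (f := indicator (closedBall (0 : R3) 2) (fun x => ENNReal.ofReal (‖x‖ ^ (-(3 / 2) : ℝ))))
        (g := fun x : R3 => R⁻¹ • x) (hm.ennreal_ofReal.indicator measurableSet_closedBall) (measurable_const_smul _), e1,
        lintegral_smul_measure, lintegral_indicator measurableSet_closedBall]
      congr 2
      rw [finrank_euclideanSpace, Fintype.card_fin, inv_pow, inv_inv, abs_of_pos (by positivity)]
    rw [e4, ← mul_assoc, ← ENNReal.ofReal_mul (by positivity)]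
    congr 2
    rw [← Real.rpow_natCast R 3, ← Real.rpow_add hR]
    norm_num
  rw [h3]
  calc ENNReal.ofReal (R ^ (3 / 2 : ℝ)) * I = ENNReal.ofReal (R ^ (3 / 2 : ℝ)) * ENNReal.ofReal I.toReal := by
        rw [ENNReal.ofReal_toReal hfin.ne]
    _ = ENNReal.ofReal (R ^ (3 / 2 : ℝ) * I.toReal) := by rw [← ENNReal.ofReal_mul (by positivity)]
    _ ≤ _ := by
        apply ENNReal.ofReal_le_ofReal
        have : 0 < R ^ (3 / 2 : ℝ) := by positivity
        nlinarith

/-- `(c + |x|^(-1/2)) 1_{|x| < ρ}` is integrable -/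
theorem one_half (c A ρ : ℝ) (hA : 0 ≤ A) :
    ∫⁻ x in ball (0 : R3) ρ, ENNReal.ofReal (c + A * ‖x‖ ^ (-(1 / 2) : ℝ)) < ⊤ := by
  have h0 : IntegrableOn (fun _ : R3 => c) (ball 0 ρ) := by
    rw [integrableOn_const_iff]
    exact Or.inr measure_ball_lt_top
  have h1 : IntegrableOn (fun x : R3 => A * ‖x‖ ^ (-(1 / 2) : ℝ)) (ball 0 ρ) := by
    refine integrableOn_ball_of_norm_le_rpow (C := A) (α := 1 / 2) (by simp) (by norm_num [finrank_euclideanSpace]) ?_
      (by fun_prop : Measurable fun x : R3 => A * ‖x‖ ^ (-(1 / 2) : ℝ)).aestronglyMeasurable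
    filter_upwards with x
    rw [Real.norm_of_nonneg (by positivity)]
  exact (h0.add h1).lintegral_lt_top

end Pool.Agent.Q85.ND
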