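import Pool.Agent.Q85.ND.Int
import Pool.Agent.Y516.NW.Fin

/-! Many configurations in which just two bodies are close. -/

set_option autoImplicit false

open MeasureTheory ENNReal Set Metric
open Pool.Agent.Y516.NW (pot kin mom)

namespace Pool.Agent.Q85.ND

/-- the volume of a set of configurations with prescribed difference of the first two bodies -/
theorem vol_reg {n : ℕ} (S : Set R3) (hS : MeasurableSet S) (c : Fin (n + 1) → R3) (r : ℝ) :
    volume {q : Fin (n + 2) → R3 | q 0 - q 1 ∈ S ∧ ∀ j : Fin (n + 1), q j.succ ∈ ball (c j) r} =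
      volume S * volume (ball (0 : R3) r) ^ (n + 1) := by
  have hm1 : Measurable fun q : Fin (n + 2) → R3 => q 0 - q 1 := by fun_prop
  have hmeas : MeasurableSet {q : Fin (n + 2) → R3 | q 0 - q 1 ∈ S ∧
      ∀ j : Fin (n + 1), q j.succ ∈ ball (c j) r} := by
    have : {q : Fin (n + 2) → R3 | q 0 - q 1 ∈ S ∧ ∀ j : Fin (n + 1), q j.succ ∈ ball (c j) r} =
        (fun q : Fin (n + 2) → R3 => q 0 - q 1) ⁻¹' S ∩
        ⋂ j : Fin (n + 1), (fun q : Fin (n + 2) → R3 => q j.succ) ⁻¹' ball (c j) r := by
      ext q; simp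
    rw [this]
    exact (hm1 hS).inter (MeasurableSet.iInter fun j => (measurable_pi_apply _) measurableSet_ball)
  rw [← lintegral_indicator_one hmeas, fub 0 _ (measurable_one.indicator hmeas)]
  have h1 : ∀ y : Fin (n + 1) → R3, ∫⁻ x : R3, indicator {q : Fin (n + 2) → R3 | q 0 - q 1 ∈ S ∧
      ∀ j : Fin (n + 1), q j.succ ∈ ball (c j) r} (1 : (Fin (n + 2) → R3) → ℝ≥0∞) ((0 : Fin (n + 2)).insertNth x y) =
      indicator (Set.pi univ fun j => ball (c j) r) 1 y * volume S := by
    intro y
    have e0 : ∀ x : R3, ((0 : Fin (n + 2)).insertNth x y : Fin (n + 2) → R3) 0 = x := fun x => by simp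
    have e1 : ∀ (x : R3) (j : Fin (n + 1)), ((0 : Fin (n + 2)).insertNth x y : Fin (n + 2) → R3) j.succ = y j := by
      intro x j
      simp
    by_cases hy : y ∈ Set.pi univ fun j => ball (c j) r
    · rw [indicator_of_mem hy, Pi.one_apply, one_mul]
      have : (fun x : R3 => indicator {q : Fin (n + 2) → R3 | q 0 - q 1 ∈ S ∧
          ∀ j : Fin (n + 1), q j.succ ∈ ball (c j) r} (1 : (Fin (n + 2) → R3) → ℝ≥0∞) ((0 : Fin (n + 2)).insertNth x y)) =
          fun x => indicator S (1 : R3 → ℝ≥0∞) (x - y 0) := by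
        funext x
        have e2 : ((0 : Fin (n + 2)).insertNth x y : Fin (n + 2) → R3) 1 = y 0 := e1 x 0
        by_cases hx : x - y 0 ∈ S
        · rw [indicator_of_mem hx, indicator_of_mem]
          · rfl
          · refine ⟨by rw [e0, e2]; exact hx, fun j => ?_⟩
            rw [e1]
            exact hy j (mem_univ j)
        · rw [indicator_of_notMem hx, indicator_of_notMem]
          rintro ⟨h, -⟩
          rw [e0, e2] at h
          exact hx h
      rw [this, lintegral_sub_right_eq_self (fun x => indicator S (1 : R3 → ℝ≥0∞) x) (y 0),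
        lintegral_indicator_one hS]
    · rw [indicator_of_notMem hy, zero_mul]
      have : (fun x : R3 => indicator {q : Fin (n + 2) → R3 | q 0 - q 1 ∈ S ∧
          ∀ j : Fin (n + 1), q j.succ ∈ ball (c j) r} (1 : (Fin (n + 2) → R3) → ℝ≥0∞) ((0 : Fin (n + 2)).insertNth x y)) =
          fun x => 0 := by
        funext x
        rw [indicator_of_notMem]
        rintro ⟨-, h⟩
        refine hy fun j _ => ?_
        have := h j
        rwa [e1] at this
      rw [this, lintegral_zero]
  rw [lintegral_congr h1, lintegral_mul_const _ (measurable_one.indicator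
    (MeasurableSet.univ_pi fun _ => measurableSet_ball)), lintegral_indicator_one
    (MeasurableSet.univ_pi fun _ => measurableSet_ball), volume_pi_pi, mul_comm]
  congr 1
  simp only [Measure.addHaar_ball_center]
  simp

/-- the potential when only the bodies `0` and `1` are close -/
theorem pot_between {n : ℕ} (m : Fin (n + 2) → ℝ) (hm : ∀ i, 0 < m i) (q : Fin (n + 2) → R3) (D : ℝ)
    (hD : 0 < D) (hq : ∀ i j, i ≠ j → ¬(i = 0 ∧ j = 1) → ¬(i = 1 ∧ j = 0) → D ≤ ‖q i - q j‖) :
    m 0 * m 1 / ‖q 0 - q 1‖ ≤ pot m q ∧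
      pot m q ≤ m 0 * m 1 / ‖q 0 - q 1‖ + (∑ i, ∑ j, m i * m j / 2) / D := by
  set ν : ℝ := m 0 * m 1 / ‖q 0 - q 1‖ / 2 with hν
  have hν0 : 0 ≤ ν := by have := hm 0; have := hm 1; positivity
  have e1 : ∑ i, ∑ j, ((if (i, j) = ((0 : Fin (n + 2)), (1 : Fin (n + 2))) then ν else 0) +
      (if (i, j) = ((1 : Fin (n + 2)), (0 : Fin (n + 2))) then ν else 0)) = m 0 * m 1 / ‖q 0 - q 1‖ := by
    rw [← Finset.sum_product' (f := fun i j => (if (i, j) = ((0 : Fin (n + 2)), (1 : Fin (n + 2))) then ν else 0) +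
      (if (i, j) = ((1 : Fin (n + 2)), (0 : Fin (n + 2))) then ν else 0))]
    rw [Finset.sum_add_distrib]
    simp only [Prod.mk.eta, Finset.sum_ite_eq', Finset.mem_product, Finset.mem_univ, and_self, if_true]
    rw [hν]; ring
  have ht : ∀ i j : Fin (n + 2), 0 ≤ m i * m j / ‖q i - q j‖ / 2 := fun i j => by
    have := hm i; have := hm j; positivity
  have h01 : (0 : Fin (n + 2)) ≠ 1 := by
    intro h
    have := congrArg Fin.val h
    simp at this
  constructor
  · rw [← e1]
    refine Finset.sum_le_sum fun i _ => Finset.sum_le_sum fun j _ => ?_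
    by_cases h1 : (i, j) = ((0 : Fin (n + 2)), (1 : Fin (n + 2)))
    · have h2 : (i, j) ≠ ((1 : Fin (n + 2)), (0 : Fin (n + 2))) := by
        rw [h1]; intro h; exact h01 (congrArg Prod.fst h)
      rw [if_pos h1, if_neg h2, add_zero]
      obtain ⟨rfl, rfl⟩ := Prod.mk.inj h1
      exact le_rfl
    · rw [if_neg h1, zero_add]
      by_cases h2 : (i, j) = ((1 : Fin (n + 2)), (0 : Fin (n + 2)))
      · rw [if_pos h2]
        obtain ⟨rfl, rfl⟩ := Prod.mk.inj h2
        rw [hν, norm_sub_rev, mul_comm (m 0)]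
      · rw [if_neg h2]
        exact ht i j
  · have e2 : (∑ i, ∑ j, m i * m j / 2) / D = ∑ i, ∑ j, m i * m j / 2 / D := by
      rw [Finset.sum_div]
      exact Finset.sum_congr rfl fun i _ => by rw [Finset.sum_div]
    rw [← e1, e2, ← Finset.sum_add_distrib]
    refine Finset.sum_le_sum fun i _ => ?_
    rw [← Finset.sum_add_distrib]
    refine Finset.sum_le_sum fun j _ => ?_
    have hp : 0 ≤ m i * m j / 2 / D := by have := hm i; have := hm j; positivity
    by_cases h1 : (i, j) = ((0 : Fin (n + 2)), (1 : Fin (n + 2)))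
    · rw [if_pos h1]
      obtain ⟨rfl, rfl⟩ := Prod.mk.inj h1
      have : (0 : ℝ) ≤ if ((0 : Fin (n + 2)), (1 : Fin (n + 2))) = (1, 0) then ν else 0 := by
        split_ifs <;> [exact hν0; exact le_rfl]
      linarith [hν]
    · rw [if_neg h1, zero_add]
      by_cases h2 : (i, j) = ((1 : Fin (n + 2)), (0 : Fin (n + 2)))
      · rw [if_pos h2]
        obtain ⟨rfl, rfl⟩ := Prod.mk.inj h2
        have : m 1 * m 0 / ‖q 1 - q 0‖ / 2 = ν := by rw [hν, norm_sub_rev, mul_comm (m 0)]
        linarith
      · rw [if_neg h2, zero_add]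
        by_cases hij : i = j
        · subst hij
          have z : m i * m i / ‖q i - q i‖ / 2 = 0 := by
            have h0 : ‖q i - q i‖ = (0 : ℝ) := by simp
            have h1 : m i * m i / (0 : ℝ) / 2 = 0 := by simp
            exact (congrArg (fun t : ℝ => m i * m i / t / 2) h0).trans h1
          exact z.le.trans hp
        · have h3 := hq i j hij (fun h => h1 (Prod.ext h.1 h.2)) (fun h => h2 (Prod.ext h.1 h.2))
          have : m i * m j / ‖q i - q j‖ ≤ m i * m j / D := by
            have := hm i; have := hm j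
            gcongr
          calc m i * m j / ‖q i - q j‖ / 2 ≤ m i * m j / D / 2 := by gcongr
            _ = _ := by ring

end Pool.Agent.Q85.ND
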