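import Pool.Agent.Q85.ND.Low

/-! The lower bound for the volume of the configurations with moderate kinetic energy. -/

set_option autoImplicit false

open MeasureTheory ENNReal Set Metric
open Pool.Agent.Y516.NW (pot kin mom)

namespace Pool.Agent.Q85.ND

theorem lower {n : ℕ} (m : Fin (n + 2) → ℝ) (hm : ∀ i, 0 < m i) (E κ : ℝ) (hE : E < 0) (hκ : 0 < κ) :
    ∃ R₀ c : ℝ, 0 < R₀ ∧ 0 < c ∧ ∀ R : ℝ, R₀ ≤ R →
      ENNReal.ofReal (c * R ^ (3 * (n + 1))) ≤ volume {q : Fin (n + 2) → R3 |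
        (∀ i, ‖q i‖ ≤ R) ∧ κ / 4 ≤ pot m q + E ∧ pot m q + E ≤ κ} := by
  set μ : ℝ := m 0 * m 1 with hμ
  have hμ0 : 0 < μ := mul_pos (hm 0) (hm 1)
  set A : ℝ := ∑ i, ∑ j, m i * m j / 2 with hA
  have hA0 : 0 ≤ A := Finset.sum_nonneg fun i _ => Finset.sum_nonneg fun j _ => by
    have := hm i; have := hm j; positivity
  set ρ1 : ℝ := μ / (-E + κ / 2) with hρ1
  set ρ2 : ℝ := μ / (-E + κ / 4) with hρ2
  have hρ10 : 0 < ρ1 := by have : 0 < -E + κ / 2 := by linarith
                           positivity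
  have hρ12 : ρ1 < ρ2 := by
    rw [hρ1, hρ2]
    apply div_lt_div_of_pos_left hμ0 <;> linarith
  have hρ20 : 0 < ρ2 := hρ10.trans hρ12
  set η : ℝ := 1 / (3 * (n + 1) + 2) with hη
  have hη0 : 0 < η := by positivity
  have hη1 : η * (3 * (n + 1) + 2) = 1 := by rw [hη]; field_simp
  set e : R3 := EuclideanSpace.single 0 1 with he
  have he1 : ‖e‖ = 1 := by simp [he]
  set S : Set R3 := {x | ρ1 < ‖x‖ ∧ ‖x‖ < ρ2} with hS
  have hSo : IsOpen S := (isOpen_lt continuous_const continuous_norm).inter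
    (isOpen_lt continuous_norm continuous_const)
  have hSne : S.Nonempty := by
    refine ⟨((ρ1 + ρ2) / 2) • e, ?_⟩
    have : ‖((ρ1 + ρ2) / 2) • e‖ = (ρ1 + ρ2) / 2 := by
      rw [norm_smul, he1, mul_one, Real.norm_of_nonneg (by positivity)]
    constructor <;> rw [this] <;> linarith
  have hSpos : 0 < volume S := hSo.measure_pos volume hSne
  have hSfin : volume S < ⊤ := by
    refine (measure_mono (fun x hx => ?_)).trans_lt (measure_ball_lt_top (x := (0 : R3)) (r := ρ2))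
    rw [mem_ball_zero_iff]
    exact hx.2
  set v : ℝ≥0∞ := volume (ball (0 : R3) 1) with hv
  have hvpos : 0 < v := measure_ball_pos volume 0 one_pos
  have hvfin : v < ⊤ := measure_ball_lt_top
  refine ⟨2 * ρ2 / η + 4 * A / (η * κ), (volume S).toReal * (η ^ 3 * v.toReal) ^ (n + 1), by positivity, ?_, ?_⟩
  · have h1 : 0 < (volume S).toReal := ENNReal.toReal_pos hSpos.ne' hSfin.ne
    have h2 : 0 < v.toReal := ENNReal.toReal_pos hvpos.ne' hvfin.ne
    positivity
  intro R hR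
  have hR1 : 2 * ρ2 / η ≤ R := by
    have : 0 ≤ 4 * A / (η * κ) := by positivity
    linarith
  have hR2 : 4 * A / (η * κ) ≤ R := by
    have : 0 ≤ 2 * ρ2 / η := by positivity
    linarith
  have hR0 : 0 < R := lt_of_lt_of_le (by positivity) hR1
  have hR3 : ρ2 ≤ η * R / 2 := by
    rw [div_le_iff₀ hη0] at hR1
    linarith
  have hR4 : A / (η * R / 2) ≤ κ / 2 := by
    rw [div_le_iff₀ (by positivity)] at hR2 ⊢
    linarith
  set c : Fin (n + 1) → R3 := fun j => (3 * η * R * ((j : ℕ) + 1 : ℝ)) • e with hc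
  have hcn : ∀ j, ‖c j‖ = 3 * η * R * ((j : ℕ) + 1 : ℝ) := fun j => by
    rw [hc]
    simp only
    rw [norm_smul, he1, mul_one, Real.norm_of_nonneg (by positivity)]
  have hcd : ∀ j k, j ≠ k → 3 * η * R ≤ ‖c j - c k‖ := by
    intro j k hjk
    have e1 : c j - c k = (3 * η * R * (((j : ℕ) : ℝ) - ((k : ℕ) : ℝ))) • e := by
      rw [hc]
      simp only
      rw [← sub_smul]
      congr 1
      ring
    have e2 : (1 : ℝ) ≤ |((j : ℕ) : ℝ) - ((k : ℕ) : ℝ)| := by
      have h1 : ((j : ℕ) : ℤ) - ((k : ℕ) : ℤ) ≠ 0 := by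
        intro h
        exact hjk (Fin.ext (by omega))
      have h2 := Int.one_le_abs h1
      exact_mod_cast h2
    rw [e1, norm_smul, he1, mul_one, Real.norm_eq_abs, abs_mul, abs_of_pos (by positivity : 0 < 3 * η * R)]
    nlinarith [(by positivity : 0 < 3 * η * R)]
  have hmain : ENNReal.ofReal ((volume S).toReal * (η ^ 3 * v.toReal) ^ (n + 1) * R ^ (3 * (n + 1))) =
      volume {q : Fin (n + 2) → R3 | q 0 - q 1 ∈ S ∧ ∀ j : Fin (n + 1), q j.succ ∈ ball (c j) (η * R)} := by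
    rw [vol_reg S hSo.measurableSet c (η * R), Measure.addHaar_ball _ _ (by positivity), finrank_euclideanSpace,
      Fintype.card_fin, ← ENNReal.ofReal_toReal hSfin.ne, ← hv, ← ENNReal.ofReal_toReal hvfin.ne,
      ← ENNReal.ofReal_mul (by positivity), ← ENNReal.ofReal_pow (by positivity), ← ENNReal.ofReal_mul (by positivity)]
    congr 1
    rw [ENNReal.toReal_ofReal (by positivity), ENNReal.toReal_ofReal (by positivity)]
    rw [pow_mul, mul_assoc, ← mul_pow]
    congr 2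
    ring
  rw [hmain]
  refine measure_mono ?_
  rintro q ⟨hq0, hq⟩
  have hq0' : ρ1 < ‖q 0 - q 1‖ ∧ ‖q 0 - q 1‖ < ρ2 := hq0
  have hqn : ∀ j : Fin (n + 1), ‖q j.succ - c j‖ < η * R := fun j => by
    have := hq j
    rwa [mem_ball_iff_norm] at this
  have hb : ∀ j : Fin (n + 1), ‖q j.succ‖ ≤ (3 * ((j : ℕ) + 1 : ℝ) + 1) * (η * R) := by
    intro j
    have h1 : ‖q j.succ‖ ≤ ‖q j.succ - c j‖ + ‖c j‖ := by
      calc ‖q j.succ‖ = ‖(q j.succ - c j) + c j‖ := by rw [sub_add_cancel]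
        _ ≤ _ := norm_add_le _ _
    rw [hcn] at h1
    have := hqn j
    nlinarith
  have hηR : (3 * (n + 1) + 2) * (η * R) = R := by
    calc (3 * ((n : ℝ) + 1) + 2) * (η * R) = (η * (3 * (n + 1) + 2)) * R := by ring
      _ = R := by rw [hη1, one_mul]
  have hηR0 : 0 < η * R := by positivity
  have hone : (1 : Fin (n + 2)) = (0 : Fin (n + 1)).succ := rfl
  have hbox : ∀ i, ‖q i‖ ≤ R := by
    intro i
    refine Fin.cases ?_ (fun j => ?_) i
    · have h1 : ‖q 0‖ ≤ ‖q 0 - q 1‖ + ‖q 1‖ := by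
        calc ‖q 0‖ = ‖(q 0 - q 1) + q 1‖ := by rw [sub_add_cancel]
          _ ≤ _ := norm_add_le _ _
      have h2 := hb 0
      rw [← hone] at h2
      simp only [Fin.val_zero, Nat.cast_zero, zero_add] at h2
      have h3 : (0 : ℝ) ≤ n := Nat.cast_nonneg n
      nlinarith
    · have h2 := hb j
      have h3 : ((j : ℕ) : ℝ) ≤ n := by
        have := j.2
        exact_mod_cast (by omega : (j : ℕ) ≤ n)
      nlinarith
  have hsep : ∀ i j, i ≠ j → ¬(i = 0 ∧ j = 1) → ¬(i = 1 ∧ j = 0) → η * R / 2 ≤ ‖q i - q j‖ := by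
    have hsucc : ∀ j k : Fin (n + 1), j ≠ k → η * R ≤ ‖q j.succ - q k.succ‖ := by
      intro j k hjk
      have h1 := hcd j k hjk
      have h2 := hqn j
      have h3 := hqn k
      have h4 : ‖c j - c k‖ ≤ ‖q j.succ - q k.succ‖ + ‖q j.succ - c j‖ + ‖q k.succ - c k‖ := by
        have : c j - c k = (q j.succ - q k.succ) - (q j.succ - c j) + (q k.succ - c k) := by abel
        rw [this]
        refine (norm_add_le _ _).trans ?_
        have := norm_sub_le (q j.succ - q k.succ) (q j.succ - c j)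
        linarith
      linarith
    have hzero : ∀ k : Fin (n + 1), k ≠ 0 → η * R / 2 ≤ ‖q 0 - q k.succ‖ := by
      intro k hk
      have h1 := hsucc 0 k hk.symm
      rw [← hone] at h1
      have h2 : ‖q 1 - q k.succ‖ ≤ ‖q 0 - q 1‖ + ‖q 0 - q k.succ‖ := by
        have : q 1 - q k.succ = (q 0 - q k.succ) - (q 0 - q 1) := by abel
        rw [this]
        have := norm_sub_le (q 0 - q k.succ) (q 0 - q 1)
        linarith
      linarith [hq0'.2]
    intro i j
    refine Fin.cases ?_ (fun a => ?_) i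
    · refine Fin.cases (fun h => absurd rfl h) (fun b => ?_) j
      intro _ h2 _
      refine hzero b fun hb => h2 ⟨rfl, by rw [hb]; rfl⟩
    · refine Fin.cases ?_ (fun b => ?_) j
      · intro _ _ h3
        rw [norm_sub_rev]
        refine hzero a fun hb => h3 ⟨by rw [hb]; rfl, rfl⟩
      · intro h1 _ _
        have := hsucc a b fun h => h1 (by rw [h])
        linarith
  have hpot := pot_between m hm q (η * R / 2) (by positivity) hsep
  refine ⟨hbox, ?_, ?_⟩
  · have h1 : -E + κ / 4 ≤ μ / ‖q 0 - q 1‖ := by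
      rw [le_div_iff₀ (hρ10.trans hq0'.1)]
      have h2 := hq0'.2.le
      rw [hρ2, le_div_iff₀ (by linarith)] at h2
      linarith
    linarith [hpot.1]
  · have h1 : μ / ‖q 0 - q 1‖ ≤ -E + κ / 2 := by
      rw [div_le_iff₀ (hρ10.trans hq0'.1)]
      have h2 := hq0'.1.le
      rw [hρ1, div_le_iff₀ (by linarith)] at h2
      linarith
    linarith [hpot.2]

end Pool.Agent.Q85.ND
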