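import Pool.Agent.Q85.ND.Cen

/-! The measure of the nonwandering states in the reduced phase space. -/

set_option autoImplicit false

open MeasureTheory ENNReal Set Metric
open Pool.Agent.Y516.NW (pot kin mom NonW Surf IsFl Free Cfg P2)

namespace Pool.Agent.Q85.ND

theorem ton {X Y : Type*} [MeasureSpace X] [MeasureSpace Y] [SFinite (volume : Measure X)]
    [SFinite (volume : Measure Y)] (box : Set X) (T : Set (X × Y))
    (hT : MeasurableSet T) (f : X × Y → ℝ≥0∞) (hf : Measurable f) :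
    ∫⁻ z in {z : X × Y | z.1 ∈ box ∧ z ∈ T}, f z = ∫⁻ q in box, ∫⁻ P, T.indicator f (q, P) := by
  have h1 : {z : X × Y | z.1 ∈ box ∧ z ∈ T} = T ∩ (box ×ˢ (univ : Set Y)) := by
    ext z; simp [and_comm]
  rw [h1, ← Measure.restrict_restrict hT, ← lintegral_indicator hT, Measure.volume_eq_prod,
    ← Measure.prod_restrict, Measure.restrict_univ, lintegral_prod _ (hf.indicator hT).aemeasurable]

variable {n : ℕ} (m : Fin (n + 1) → ℝ)

/-- the states in a set `A`, without the restriction on the positions -/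
def rest (E κ s : ℝ) (A : Set (Cfg (n + 1) × Cfg (n + 1))) : Set ((Fin (n + 1) → R3) × (Fin n → R3)) :=
  {z | 0 < pot m z.1 + E ∧ (pot m z.1 + E ≤ κ ∨ s = 2) ∧ kin m (mom z.2) ≤ 1 ∧ st m E z ∈ A}

/-- the fibre integral -/
noncomputable def GG (E κ s : ℝ) (A : Set (Cfg (n + 1) × Cfg (n + 1))) (q : Fin (n + 1) → R3) : ℝ≥0∞ :=
  ∫⁻ P : Fin n → R3, (rest m E κ s A).indicator (fun z => ENNReal.ofReal ((pot m z.1 + E) ^ s)) (q, P)

/-- the measure of the states in the set `A` and in the ball of radius `R` -/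
noncomputable def lam (E κ s R : ℝ) (A : Set (Cfg (n + 1) × Cfg (n + 1))) : ℝ≥0∞ :=
  ∫⁻ z in {z : (Fin n → R3) × (Fin n → R3) | (∀ i, ‖cfg m z.1 i‖ ≤ R) ∧ 0 < pot m (cfg m z.1) + E ∧
    (pot m (cfg m z.1) + E ≤ κ ∨ s = 2) ∧ kin m (mom z.2) ≤ 1 ∧
    (cfg m z.1, Real.sqrt ((pot m (cfg m z.1) + E) / kin m (mom z.2)) • mom z.2) ∈ A},
    ENNReal.ofReal ((pot m (cfg m z.1) + E) ^ s)

theorem rest_meas (E κ s : ℝ) {A : Set (Cfg (n + 1) × Cfg (n + 1))} (hA : MeasurableSet A) :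
    MeasurableSet (rest m E κ s A) := by
  have hpm := pot_meas m
  have hkm : Measurable fun P : Fin n → R3 => kin m (mom P) := ((kin_cont m).comp mom_cont).measurable
  have hst := st_meas m E
  have h2 : MeasurableSet {z : (Fin (n + 1) → R3) × (Fin n → R3) | 0 < pot m z.1 + E} :=
    measurableSet_lt measurable_const (by fun_prop)
  have h3a : MeasurableSet {z : (Fin (n + 1) → R3) × (Fin n → R3) | pot m z.1 + E ≤ κ} :=
    measurableSet_le (by fun_prop) measurable_const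
  have h3 : MeasurableSet {z : (Fin (n + 1) → R3) × (Fin n → R3) | pot m z.1 + E ≤ κ ∨ s = 2} :=
    h3a.union (MeasurableSet.const (s = 2))
  have h4 : MeasurableSet {z : (Fin (n + 1) → R3) × (Fin n → R3) | kin m (mom z.2) ≤ 1} :=
    measurableSet_le (hkm.comp measurable_snd) measurable_const
  exact h2.inter (h3.inter (h4.inter (hst hA)))

theorem f_meas (E s : ℝ) : Measurable fun z : (Fin (n + 1) → R3) × (Fin n → R3) =>
    ENNReal.ofReal ((pot m z.1 + E) ^ s) := by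
  have hpm := pot_meas m
  fun_prop

theorem GG_meas (E κ s : ℝ) {A : Set (Cfg (n + 1) × Cfg (n + 1))} (hA : MeasurableSet A) :
    Measurable (GG m E κ s A) :=
  ((f_meas m E s).indicator (rest_meas m E κ s hA)).lintegral_prod_right'

theorem st_shift (hm : ∀ i, 0 < m i) (E : ℝ) (q : Fin (n + 1) → R3) (x : R3) (P : Fin n → R3) :
    st m E ((fun i => q i + x), P) = st m E (q, P) := by
  have h1 : pot m (fun i => q i + x) = pot m q := by
    have := pot_shift m q (-x)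
    simpa only [sub_neg_eq_add] using this
  unfold st
  rw [ctr_add m hm, h1]
  simp only [add_sub_add_right_eq_sub]

theorem GG_shift (hm : ∀ i, 0 < m i) (E κ s : ℝ) (A : Set (Cfg (n + 1) × Cfg (n + 1))) (q : Fin (n + 1) → R3)
    (x : R3) : GG m E κ s A (fun i => q i + x) = GG m E κ s A q := by
  have h1 : pot m (fun i => q i + x) = pot m q := by
    have := pot_shift m q (-x)
    simpa only [sub_neg_eq_add] using this
  unfold GG
  refine lintegral_congr fun P => ?_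
  by_cases h : (q, P) ∈ rest m E κ s A
  · have h' : ((fun i => q i + x), P) ∈ rest m E κ s A := by
      simp only [rest, mem_ofPred_eq, h1, st_shift m hm] at h ⊢
      exact h
    rw [indicator_of_mem h, indicator_of_mem h', h1]
  · have h' : ((fun i => q i + x), P) ∉ rest m E κ s A := by
      simp only [rest, mem_ofPred_eq, h1, st_shift m hm] at h ⊢
      exact h
    rw [indicator_of_notMem h, indicator_of_notMem h']

theorem box_meas (ρ : ℝ) : MeasurableSet {q : Fin (n + 1) → R3 | ∀ i, ‖q i‖ ≤ ρ} := by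
  have : {q : Fin (n + 1) → R3 | ∀ i, ‖q i‖ ≤ ρ} = ⋂ i, {q : Fin (n + 1) → R3 | ‖q i‖ ≤ ρ} := by ext z; simp
  rw [this]
  exact MeasurableSet.iInter fun i => measurableSet_le (by fun_prop) measurable_const

/-- the map to all configurations -/
noncomputable def jj (z : (Fin n → R3) × (Fin n → R3)) : (Fin (n + 1) → R3) × (Fin n → R3) := (cfg m z.1, z.2)

theorem jj_meas : Measurable (jj m) := by
  have hcm : Measurable (cfg m) := (cfg_cont m).measurable
  exact (hcm.comp measurable_fst).prodMk measurable_snd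

theorem st_jj (hm : ∀ i, 0 < m i) (E : ℝ) (z : (Fin n → R3) × (Fin n → R3)) : st m E (jj m z) =
    (cfg m z.1, Real.sqrt ((pot m (cfg m z.1) + E) / kin m (mom z.2)) • mom z.2) := by
  unfold st jj
  simp only [ctr_cfg m hm, sub_zero]

theorem set_eq (hm : ∀ i, 0 < m i) (E κ s R : ℝ) (A : Set (Cfg (n + 1) × Cfg (n + 1))) :
    {z : (Fin n → R3) × (Fin n → R3) | z.1 ∈ {Q : Fin n → R3 | ∀ i, ‖cfg m Q i‖ ≤ R} ∧
      z ∈ jj m ⁻¹' rest m E κ s A} =
    {z : (Fin n → R3) × (Fin n → R3) | (∀ i, ‖cfg m z.1 i‖ ≤ R) ∧ 0 < pot m (cfg m z.1) + E ∧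
    (pot m (cfg m z.1) + E ≤ κ ∨ s = 2) ∧ kin m (mom z.2) ≤ 1 ∧
    (cfg m z.1, Real.sqrt ((pot m (cfg m z.1) + E) / kin m (mom z.2)) • mom z.2) ∈ A} := by
  ext z
  rw [mem_ofPred_eq, mem_ofPred_eq, mem_preimage, rest, mem_ofPred_eq, st_jj m hm]
  rfl

theorem GG_cfg (E κ s : ℝ) (A : Set (Cfg (n + 1) × Cfg (n + 1))) (Q : Fin n → R3) :
    ∫⁻ P : Fin n → R3, (jj m ⁻¹' rest m E κ s A).indicator
      (fun z => ENNReal.ofReal ((pot m (jj m z).1 + E) ^ s)) (Q, P) = GG m E κ s A (cfg m Q) := by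
  rw [GG]
  refine lintegral_congr fun P => ?_
  by_cases h : (cfg m Q, P) ∈ rest m E κ s A
  · have h' : (Q, P) ∈ jj m ⁻¹' rest m E κ s A := h
    rw [indicator_of_mem h, indicator_of_mem h']
    rfl
  · have h' : (Q, P) ∉ jj m ⁻¹' rest m E κ s A := h
    rw [indicator_of_notMem h, indicator_of_notMem h']

theorem boxc_meas (R : ℝ) : MeasurableSet {Q : Fin n → R3 | ∀ i, ‖cfg m Q i‖ ≤ R} := by
  have hcm : Measurable (cfg m) := (cfg_cont m).measurable
  exact hcm (box_meas R)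

theorem fjj_meas (E s : ℝ) : Measurable fun z : (Fin n → R3) × (Fin n → R3) =>
    ENNReal.ofReal ((pot m (jj m z).1 + E) ^ s) := (f_meas m E s).comp (jj_meas m)

theorem lam_eq (hm : ∀ i, 0 < m i) (E κ s R : ℝ) {A : Set (Cfg (n + 1) × Cfg (n + 1))} (hA : MeasurableSet A) :
    lam m E κ s R A = ∫⁻ Q in {Q : Fin n → R3 | ∀ i, ‖cfg m Q i‖ ≤ R}, GG m E κ s A (cfg m Q) := by
  have h1 := ton {Q : Fin n → R3 | ∀ i, ‖cfg m Q i‖ ≤ R}
    (jj m ⁻¹' rest m E κ s A) ((jj_meas m) (rest_meas m E κ s hA))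
    (fun z => ENNReal.ofReal ((pot m (jj m z).1 + E) ^ s)) (fjj_meas m E s)
  rw [set_eq m hm] at h1
  rw [lam]
  refine Eq.trans ?_ (h1.trans (lintegral_congr fun Q => GG_cfg m E κ s A Q))
  rfl

theorem uncentred (E κ s R : ℝ) {A : Set (Cfg (n + 1) × Cfg (n + 1))} (hA : MeasurableSet A) :
    ∫⁻ z in {z : (Fin (n + 1) → R3) × (Fin n → R3) | (∀ i, ‖z.1 i‖ ≤ R) ∧ 0 < pot m z.1 + E ∧
        (pot m z.1 + E ≤ κ ∨ s = 2) ∧ kin m (mom z.2) ≤ 1 ∧ st m E z ∈ A},
        ENNReal.ofReal ((pot m z.1 + E) ^ s) = ∫⁻ q in {q | ∀ i, ‖q i‖ ≤ R}, GG m E κ s A q :=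
  ton {q : Fin (n + 1) → R3 | ∀ i, ‖q i‖ ≤ R} (rest m E κ s A) (rest_meas m E κ s hA)
    (fun z => ENNReal.ofReal ((pot m z.1 + E) ^ s)) (f_meas m E s)

end Pool.Agent.Q85.ND
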