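import Pool.Agent.Q85.ND.Main

/-! The measure of the nonwandering states in the reduced phase space: the final bounds. -/

set_option autoImplicit false

open MeasureTheory ENNReal Set Metric
open Pool.Agent.Y516.NW (pot kin mom NonW Surf IsFl Free Cfg P2)

namespace Pool.Agent.Q85.ND

theorem GG_lower {n : ℕ} (m : Fin (n + 2) → ℝ) (hm : ∀ i, 0 < m i) (E κ s : ℝ) (hE : E < 0) (hκ : 0 < κ)
    (hs : 2 ≤ s) :
    ∃ R₀ c : ℝ, 0 < R₀ ∧ 0 < c ∧ ∀ R : ℝ, R₀ ≤ R →
      ENNReal.ofReal (c * R ^ (3 * (n + 1))) ≤ ∫⁻ q in {q | ∀ i, ‖q i‖ ≤ R}, GG m E κ s univ q := by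
  obtain ⟨R₀, c, hR₀, hc, hlow⟩ := lower m hm E κ hE hκ
  obtain ⟨hWpos, hWfin⟩ := kin_vol m hm
  set W := volume {P : Fin (n + 1) → R3 | kin m (mom P) ≤ 1} with hW
  have hW0 : 0 < W.toReal := ENNReal.toReal_pos hWpos.ne' hWfin.ne
  refine ⟨R₀, (κ / 4) ^ s * W.toReal * c, hR₀, by positivity, fun R hR => ?_⟩
  have h1 := hlow R hR
  have hkm : Measurable fun P : Fin (n + 1) → R3 => kin m (mom P) := ((kin_cont m).comp mom_cont).measurable
  have hPm : MeasurableSet {P : Fin (n + 1) → R3 | kin m (mom P) ≤ 1} := measurableSet_le hkm measurable_const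
  have hR0 : 0 < R := hR₀.trans_le hR
  set Q : Set (Fin (n + 2) → R3) := {q | (∀ i, ‖q i‖ ≤ R) ∧ κ / 4 ≤ pot m q + E ∧ pot m q + E ≤ κ} with hQ
  have hpm := pot_meas m
  have hQm : MeasurableSet Q := by
    have e2 : MeasurableSet {q : Fin (n + 2) → R3 | κ / 4 ≤ pot m q + E} :=
      measurableSet_le measurable_const (by fun_prop)
    have e3 : MeasurableSet {q : Fin (n + 2) → R3 | pot m q + E ≤ κ} :=
      measurableSet_le (by fun_prop) measurable_const
    exact (box_meas R).inter (e2.inter e3)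
  have hGG : ∀ q ∈ Q, ENNReal.ofReal ((κ / 4) ^ s) * W ≤ GG m E κ s univ q := by
    intro q hq
    rw [GG, hW, ← lintegral_indicator_one hPm, ← lintegral_const_mul _ (measurable_one.indicator hPm)]
    refine lintegral_mono fun P => ?_
    by_cases hP : P ∈ {P : Fin (n + 1) → R3 | kin m (mom P) ≤ 1}
    · have h2 : (q, P) ∈ rest m E κ s univ := by
        refine ⟨?_, Or.inl hq.2.2, hP, mem_univ _⟩
        have := hq.2.1
        show 0 < pot m q + E
        linarith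
      rw [indicator_of_mem hP, indicator_of_mem h2, Pi.one_apply, mul_one]
      exact ENNReal.ofReal_le_ofReal (Real.rpow_le_rpow (by positivity) hq.2.1 (by linarith))
    · rw [indicator_of_notMem hP, mul_zero]
      exact zero_le
  calc ENNReal.ofReal ((κ / 4) ^ s * W.toReal * c * R ^ (3 * (n + 1)))
      = ENNReal.ofReal ((κ / 4) ^ s) * W * ENNReal.ofReal (c * R ^ (3 * (n + 1))) := by
        nth_rewrite 2 [← ENNReal.ofReal_toReal hWfin.ne]
        rw [← ENNReal.ofReal_mul (by positivity), ← ENNReal.ofReal_mul (by positivity)]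
        congr 1
        ring
    _ ≤ ENNReal.ofReal ((κ / 4) ^ s) * W * volume Q := by gcongr
    _ = ∫⁻ _ in Q, ENNReal.ofReal ((κ / 4) ^ s) * W := by rw [setLIntegral_const]
    _ ≤ ∫⁻ q in Q, GG m E κ s univ q := setLIntegral_mono' hQm hGG
    _ ≤ _ := lintegral_mono_set fun q hq => hq.1

/-- division by the volume of a ball -/
theorem div_ball (R : ℝ) (hR : 0 < R) (x : ℝ≥0∞) (b : ℝ)
    (h : volume (closedBall (0 : R3) R) * x ≤ ENNReal.ofReal b) :
    x ≤ ENNReal.ofReal (b / (volume (ball (0 : R3) 1)).toReal * R⁻¹ ^ 3) := by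
  have hv0 : 0 < (volume (ball (0 : R3) 1)).toReal :=
    ENNReal.toReal_pos (measure_ball_pos volume 0 one_pos).ne' measure_ball_lt_top.ne
  have e1 : volume (closedBall (0 : R3) R) = ENNReal.ofReal (R ^ 3 * (volume (ball (0 : R3) 1)).toReal) := by
    rw [Measure.addHaar_closedBall _ _ hR.le, finrank_euclideanSpace, Fintype.card_fin,
      ENNReal.ofReal_mul (by positivity), ENNReal.ofReal_toReal measure_ball_lt_top.ne]
  rw [e1, mul_comm] at h
  have h2 := ENNReal.le_div_iff_mul_le (a := x) (b := ENNReal.ofReal (R ^ 3 * (volume (ball (0 : R3) 1)).toReal))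
    (c := ENNReal.ofReal b) (Or.inl (by
      rw [ne_eq, ENNReal.ofReal_eq_zero, not_le]; positivity)) (Or.inl ENNReal.ofReal_ne_top)
  have h3 := h2.mpr h
  rw [← ENNReal.ofReal_div_of_pos (by positivity)] at h3
  refine h3.trans (le_of_eq ?_)
  congr 1
  field_simp

/-- the reverse -/
theorem ball_div (R : ℝ) (hR : 0 < R) (x : ℝ≥0∞) (b : ℝ)
    (h : ENNReal.ofReal b ≤ volume (closedBall (0 : R3) R) * x) :
    ENNReal.ofReal (b / (volume (ball (0 : R3) 1)).toReal * R⁻¹ ^ 3) ≤ x := by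
  have hv0 : 0 < (volume (ball (0 : R3) 1)).toReal :=
    ENNReal.toReal_pos (measure_ball_pos volume 0 one_pos).ne' measure_ball_lt_top.ne
  have e1 : volume (closedBall (0 : R3) R) = ENNReal.ofReal (R ^ 3 * (volume (ball (0 : R3) 1)).toReal) := by
    rw [Measure.addHaar_closedBall _ _ hR.le, finrank_euclideanSpace, Fintype.card_fin,
      ENNReal.ofReal_mul (by positivity), ENNReal.ofReal_toReal measure_ball_lt_top.ne]
  rw [e1, mul_comm] at h
  have h2 := ENNReal.div_le_iff_le_mul (a := ENNReal.ofReal b)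
    (b := ENNReal.ofReal (R ^ 3 * (volume (ball (0 : R3) 1)).toReal)) (c := x) (Or.inl (by
      rw [ne_eq, ENNReal.ofReal_eq_zero, not_le]; positivity)) (Or.inl ENNReal.ofReal_ne_top)
  have h3 := h2.mpr h
  rw [← ENNReal.ofReal_div_of_pos (by positivity)] at h3
  refine le_trans (le_of_eq ?_) h3
  congr 1
  field_simp

theorem main {n : ℕ} (hn : 1 ≤ n) (m : Fin (n + 2) → ℝ) (hm : ∀ i, 0 < m i) (E κ : ℝ) (hE : E < 0)
    (hκ : 0 < κ) (C₀ : ℝ) (hC₀ : 0 < C₀) (s : ℝ) (hs : 2 ≤ s) :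
    ∃ c C R₀ : ℝ, 0 < c ∧ ∀ R : ℝ, R₀ ≤ R →
      ENNReal.ofReal (c * R ^ (3 * ((n : ℝ) + 1) - 3)) ≤ lam m E κ s R univ ∧
      ∀ NW : Set (Cfg (n + 2) × Cfg (n + 2)), IsClosed NW →
      (∀ q : Cfg (n + 2), (∀ i j, i ≠ j → q i ≠ q j) → ∑ i, m i • q i = 0 →
      ∀ a b : Fin (n + 2), a ≠ b → ∀ δ : ℝ, 0 < δ → (∀ i j, P2 a b i j → δ ≤ ‖q i - q j‖) →
      0 < pot m q + E →
      volume {P : Fin (n + 1) → R3 | kin m (mom P) ≤ 1 ∧
          (q, Real.sqrt ((pot m q + E) / kin m (mom P)) • mom P) ∈ NW} ≤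
        ENNReal.ofReal ((C₀ / (δ * (pot m q + E))) ^ (3 / 2 : ℝ)) *
          volume {P : Fin (n + 1) → R3 | kin m (mom P) ≤ 1}) →
      lam m E κ s R NW ≤ ENNReal.ofReal (C * R ^ (3 * ((n : ℝ) + 1) - 9 / 2)) := by
  obtain ⟨C, hup⟩ := upper hn m hm E κ hE hκ C₀ hC₀ s hs
  obtain ⟨R₁, c₁, hR₁, hc₁, hlow⟩ := GG_lower m hm E κ s hE hκ hs
  obtain ⟨a, ha0, hat, htr⟩ := transfer m hm
  have ha : 0 < a.toReal := ENNReal.toReal_pos ha0 hat
  set v : ℝ := (volume (ball (0 : R3) 1)).toReal with hv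
  have hv0 : 0 < v := ENNReal.toReal_pos (measure_ball_pos volume 0 one_pos).ne' measure_ball_lt_top.ne
  refine ⟨a.toReal * c₁ / v * (1 / 2) ^ (3 * n), a.toReal * C / v * 2 ^ (3 * ((n : ℝ) + 1) - 3 / 2), 2 * R₁,
    by positivity, fun R hR => ⟨?_, ?_⟩⟩
  · have hR0 : 0 < R := by linarith
    have h1 := hlow (R / 2) (by linarith)
    have h2 := (htr (GG m E κ s univ) (GG_meas m E κ s MeasurableSet.univ)
      (fun q x => GG_shift m hm E κ s univ q x) (R / 2)).2
    rw [mul_div_cancel₀ R (by norm_num : (2 : ℝ) ≠ 0)] at h2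
    rw [lam_eq m hm E κ s R MeasurableSet.univ]
    have h3 : ENNReal.ofReal (a.toReal * (c₁ * (R / 2) ^ (3 * (n + 1)))) ≤
        volume (closedBall (0 : R3) (R / 2)) * ∫⁻ Q in {Q | ∀ i, ‖cfg m Q i‖ ≤ R}, GG m E κ s univ (cfg m Q) := by
      refine le_trans ?_ h2
      rw [ENNReal.ofReal_mul ha.le, ENNReal.ofReal_toReal hat]
      gcongr
    have h4 := ball_div (R / 2) (by linarith) _ _ h3
    refine le_trans (le_of_eq ?_) h4
    congr 1
    have e1 : R ^ (3 * ((n : ℝ) + 1) - 3) = R ^ (3 * n) := by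
      rw [← Real.rpow_natCast R (3 * n)]
      congr 1
      push_cast
      ring
    rw [e1, ← hv, show 3 * (n + 1) = 3 * n + 3 by ring, pow_add, div_pow 1, one_pow, div_pow R 2 (3 * n), inv_pow]
    have h5 : (R / 2) ^ 3 * ((R / 2) ^ 3)⁻¹ = 1 := mul_inv_cancel₀ (by positivity)
    calc a.toReal * c₁ / v * (1 / 2 ^ (3 * n)) * R ^ (3 * n)
        = a.toReal * c₁ / v * (R ^ (3 * n) / 2 ^ (3 * n)) * 1 := by ring
      _ = a.toReal * c₁ / v * (R ^ (3 * n) / 2 ^ (3 * n)) * ((R / 2) ^ 3 * ((R / 2) ^ 3)⁻¹) := by rw [h5]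
      _ = _ := by ring
  · intro NW hNW hfib
    have hR0 : 0 < R := by linarith
    have h1 := hup NW hNW hfib (2 * R) (by linarith)
    rw [uncentred m E κ s (2 * R) hNW.measurableSet] at h1
    have h2 := (htr (GG m E κ s NW) (GG_meas m E κ s hNW.measurableSet)
      (fun q x => GG_shift m hm E κ s NW q x) R).1
    rw [← lam_eq m hm E κ s R hNW.measurableSet] at h2
    have h3 : volume (closedBall (0 : R3) R) * lam m E κ s R NW ≤
        ENNReal.ofReal (a.toReal * (C * (2 * R) ^ (3 * ((n : ℝ) + 1) - 3 / 2))) := by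
      refine h2.trans ?_
      rw [ENNReal.ofReal_mul ha.le, ENNReal.ofReal_toReal hat]
      gcongr
    have h4 := div_ball R hR0 _ _ h3
    refine h4.trans (le_of_eq ?_)
    congr 1
    have e1 : R ^ (3 * ((n : ℝ) + 1) - 3 / 2) = R ^ (3 * ((n : ℝ) + 1) - 9 / 2) * R ^ 3 := by
      rw [← Real.rpow_natCast R 3, ← Real.rpow_add hR0]
      congr 1
      push_cast
      ring
    rw [Real.mul_rpow (by norm_num) hR0.le, e1, ← hv]
    field_simp

end Pool.Agent.Q85.ND
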