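import Pool.Agent.Q85.ND.Low2
import Pool.Agent.Q130.NX.Fin3

/-! The upper bound for the Liouville measure of the nonwandering states. -/

set_option autoImplicit false

open MeasureTheory ENNReal Set Metric
open Pool.Agent.Y516.NW (pot kin mom NonW Surf IsFl Free Cfg P2)

namespace Pool.Agent.Q85.ND

/-- centre of mass -/
noncomputable def ctr {N : ℕ} (m : Fin N → ℝ) (q : Fin N → R3) : R3 := (∑ i, m i)⁻¹ • ∑ i, m i • q i

/-- the centred state with kinetic energy `U(q) + E` -/
noncomputable def st {n : ℕ} (m : Fin (n + 1) → ℝ) (E : ℝ) (z : (Fin (n + 1) → R3) × (Fin n → R3)) :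
    Cfg (n + 1) × Cfg (n + 1) :=
  (fun i => z.1 i - ctr m z.1, Real.sqrt ((pot m z.1 + E) / kin m (mom z.2)) • mom z.2)

theorem pot_meas {N : ℕ} (m : Fin N → ℝ) : Measurable (pot m) := by
  unfold Pool.Agent.Y516.NW.pot
  fun_prop

theorem mom_cont {n : ℕ} : Continuous (mom : (Fin n → R3) → Cfg (n + 1)) := by
  refine continuous_pi fun i => ?_
  refine Fin.lastCases ?_ (fun j => ?_) i
  · simp only [Pool.Agent.Y516.NW.mom, Fin.snoc_last]
    fun_prop
  · simp only [Pool.Agent.Y516.NW.mom, Fin.snoc_castSucc]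
    fun_prop

theorem kin_cont {N : ℕ} (m : Fin N → ℝ) : Continuous (kin m) := by
  unfold Pool.Agent.Y516.NW.kin
  fun_prop

theorem st_meas {n : ℕ} (m : Fin (n + 1) → ℝ) (E : ℝ) : Measurable (st m E) := by
  have h1 := pot_meas m
  have h2 : Measurable (mom : (Fin n → R3) → Cfg (n + 1)) := mom_cont.measurable
  have h3 : Measurable (kin m) := (kin_cont m).measurable
  have h4 : Measurable (ctr m) := by unfold ctr; fun_prop
  unfold st
  fun_prop

theorem nonW_closed {F : Type*} [TopologicalSpace F] (S : Set F) (φ : ℝ → F → F) :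
    IsClosed {x | NonW S φ x} := by
  rw [← isOpen_compl_iff, isOpen_iff_forall_mem_open]
  intro x hx
  simp only [mem_compl_iff, mem_ofPred_eq, NonW, not_forall] at hx
  obtain ⟨V, hV, hxV, T, h⟩ := hx
  refine ⟨V, fun y hy hyN => h (hyN V hV hy T), hV, hxV⟩

theorem pot_shift {N : ℕ} (m : Fin N → ℝ) (q : Fin N → R3) (c : R3) : pot m (fun i => q i - c) = pot m q := by
  simp only [Pool.Agent.Y516.NW.pot, sub_sub_sub_cancel_right]

theorem ctr_zero {N : ℕ} (m : Fin N → ℝ) (hm : 0 < ∑ i, m i) (q : Fin N → R3) :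
    ∑ i, m i • (q i - ctr m q) = 0 := by
  simp only [smul_sub, Finset.sum_sub_distrib, ← Finset.sum_smul]
  rw [ctr, smul_smul, mul_inv_cancel₀ hm.ne', one_smul, sub_self]

theorem ae_free {N : ℕ} : ∀ᵐ q : Fin N → R3, ∀ i j, i ≠ j → q i ≠ q j := by
  rw [ae_all_iff]
  intro i
  rw [ae_all_iff]
  intro j
  by_cases hij : i = j
  · exact Filter.Eventually.of_forall fun q h => absurd hij h
  set L : (Fin N → R3) →ₗ[ℝ] R3 := LinearMap.proj (R := ℝ) (φ := fun _ : Fin N => R3) i -
    LinearMap.proj (R := ℝ) (φ := fun _ : Fin N => R3) j with hL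
  have h1 : volume ((LinearMap.ker L : Submodule ℝ (Fin N → R3)) : Set (Fin N → R3)) = 0 := by
    refine Measure.addHaar_submodule volume _ fun h => ?_
    have h2 : (Pi.single i (EuclideanSpace.single 0 1) : Fin N → R3) ∈ LinearMap.ker L := by
      rw [h]; trivial
    rw [LinearMap.mem_ker, hL, LinearMap.sub_apply, LinearMap.proj_apply, LinearMap.proj_apply, Pi.single_eq_same,
      Pi.single_eq_of_ne (Ne.symm hij), sub_zero] at h2
    have h3 : ‖(EuclideanSpace.single 0 1 : R3)‖ = 1 := by simp
    rw [h2, norm_zero] at h3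
    exact zero_ne_one h3
  rw [ae_iff]
  refine measure_mono_null (fun q hq => ?_) h1
  simp only [mem_ofPred_eq, not_forall, not_not] at hq
  obtain ⟨-, hq⟩ := hq
  rw [SetLike.mem_coe, LinearMap.mem_ker, hL, LinearMap.sub_apply, LinearMap.proj_apply, LinearMap.proj_apply, hq,
    sub_self]

/-- the potential is at most `A / (least distance)` -/
theorem pot_le {N : ℕ} (m : Fin N → ℝ) (hm : ∀ i, 0 < m i) (q : Fin N → R3) (r : ℝ) (hr : 0 < r)
    (h : ∀ i j, i ≠ j → r ≤ ‖q i - q j‖) : pot m q ≤ (∑ i, ∑ j, m i * m j / 2) / r := by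
  rw [Finset.sum_div]
  refine Finset.sum_le_sum fun i _ => ?_
  rw [Finset.sum_div]
  refine Finset.sum_le_sum fun j _ => ?_
  have hi := hm i
  have hj := hm j
  by_cases hij : i = j
  · subst hij
    have z : m i * m i / ‖q i - q i‖ / 2 = 0 := by
      have h0 : ‖q i - q i‖ = (0 : ℝ) := by simp
      have h1 : m i * m i / (0 : ℝ) / 2 = 0 := by simp
      exact (congrArg (fun t : ℝ => m i * m i / t / 2) h0).trans h1
    exact z.le.trans (by positivity)
  · have := h i j hij
    calc m i * m j / ‖q i - q j‖ / 2 ≤ m i * m j / r / 2 := by gcongr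
      _ = _ := by ring

/-- the momenta of kinetic energy at most one have finite positive volume -/
theorem kin_vol {n : ℕ} (m : Fin (n + 1) → ℝ) (hm : ∀ i, 0 < m i) :
    0 < volume {P : Fin n → R3 | kin m (mom P) ≤ 1} ∧ volume {P : Fin n → R3 | kin m (mom P) ≤ 1} < ⊤ := by
  have hc : Continuous fun P : Fin n → R3 => kin m (mom P) := (kin_cont m).comp mom_cont
  constructor
  · have ho : IsOpen {P : Fin n → R3 | kin m (mom P) < 1} := isOpen_lt hc continuous_const
    have hne : {P : Fin n → R3 | kin m (mom P) < 1}.Nonempty := by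
      refine ⟨0, ?_⟩
      have : (mom (0 : Fin n → R3)) = 0 := by
        funext i
        refine Fin.lastCases ?_ (fun j => ?_) i
        · simp [Pool.Agent.Y516.NW.mom]
        · simp [Pool.Agent.Y516.NW.mom]
      simp only [mem_ofPred_eq, this]
      simp [Pool.Agent.Y516.NW.kin]
    exact (ho.measure_pos volume hne).trans_le (measure_mono fun P (hP : kin m (mom P) < 1) => hP.le)
  · have hb : {P : Fin n → R3 | kin m (mom P) ≤ 1} ⊆ closedBall 0 (1 + ∑ i, 2 * m i) := by
      intro P hP
      have hs : 0 ≤ ∑ i, 2 * m i := Finset.sum_nonneg fun i _ => by have := hm i; positivity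
      rw [mem_closedBall_zero_iff, pi_norm_le_iff_of_nonneg (by linarith)]
      intro j
      have h1 : ‖mom P j.castSucc‖ ^ 2 / (2 * m j.castSucc) ≤ kin m (mom P) :=
        Finset.single_le_sum (f := fun i => ‖mom P i‖ ^ 2 / (2 * m i)) (fun i _ => by
          have := hm i; positivity) (Finset.mem_univ j.castSucc)
      have h2 : mom P j.castSucc = P j := by simp [Pool.Agent.Y516.NW.mom]
      have h3 := hm j.castSucc
      rw [h2] at h1
      have h4 : ‖P j‖ ^ 2 ≤ 2 * m j.castSucc := by
        have h5 := h1.trans hP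
        rwa [div_le_one (by positivity)] at h5
      have h6 : 2 * m j.castSucc ≤ ∑ i, 2 * m i :=
        Finset.single_le_sum (f := fun i => 2 * m i) (fun i _ => by have := hm i; positivity)
          (Finset.mem_univ j.castSucc)
      nlinarith [norm_nonneg (P j)]
    exact (measure_mono hb).trans_lt measure_closedBall_lt_top

end Pool.Agent.Q85.ND
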