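import Pool.Agent.Q85.ND.Up

/-! The upper bound for the Liouville measure of the nonwandering states. -/

set_option autoImplicit false

open MeasureTheory ENNReal Set Metric
open Pool.Agent.Y516.NW (pot kin mom NonW Surf IsFl Free Cfg P2)

namespace Pool.Agent.Q85.ND

/-- the function of the difference of the closest pair -/
noncomputable def hh (c₁ c₂ ρ : ℝ) : R3 → ℝ≥0∞ :=
  indicator (ball 0 ρ) fun x => ENNReal.ofReal (c₁ + c₂ * ‖x‖ ^ (-(1 / 2) : ℝ))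

/-- the function of the difference of the other pair -/
noncomputable def gg : R3 → ℝ≥0∞ := fun x => ENNReal.ofReal (‖x‖ ^ (-(3 / 2) : ℝ))

theorem hh_meas (c₁ c₂ ρ : ℝ) : Measurable (hh c₁ c₂ ρ) :=
  (by fun_prop : Measurable fun x : R3 => ENNReal.ofReal (c₁ + c₂ * ‖x‖ ^ (-(1 / 2) : ℝ))).indicator
    measurableSet_ball

theorem gg_meas : Measurable gg := by
  unfold gg
  fun_prop

/-- the inequality between the powers -/
theorem powers (C K δ r s κ A : ℝ) (hC : 0 < C) (hK : 0 < K) (hδ : 0 < δ) (hr : 0 < r) (hs : 2 ≤ s)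
    (hκ : 0 < κ) (hA : 0 ≤ A) (h : K ≤ κ ∨ s = 2) (hKA : K ≤ A / r) :
    K ^ s * (C / (δ * K)) ^ (3 / 2 : ℝ) ≤
      C ^ (3 / 2 : ℝ) * ((κ ^ (s - 3 / 2) + A ^ (1 / 2 : ℝ) * r ^ (-(1 / 2) : ℝ)) * δ ^ (-(3 / 2) : ℝ)) := by
  have e1 : (C / (δ * K)) ^ (3 / 2 : ℝ) = C ^ (3 / 2 : ℝ) * δ ^ (-(3 / 2) : ℝ) * K ^ (-(3 / 2) : ℝ) := by
    rw [Real.div_rpow hC.le (by positivity), Real.mul_rpow hδ.le hK.le, Real.rpow_neg hδ.le, Real.rpow_neg hK.le]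
    have : 0 < δ ^ (3 / 2 : ℝ) := by positivity
    have : 0 < K ^ (3 / 2 : ℝ) := by positivity
    field_simp
  have e2 : K ^ s * K ^ (-(3 / 2) : ℝ) = K ^ (s - 3 / 2) := by
    rw [← Real.rpow_add hK]; rfl
  have e3 : K ^ (s - 3 / 2) ≤ κ ^ (s - 3 / 2) + A ^ (1 / 2 : ℝ) * r ^ (-(1 / 2) : ℝ) := by
    rcases h with h | h
    · have : K ^ (s - 3 / 2) ≤ κ ^ (s - 3 / 2) := Real.rpow_le_rpow hK.le h (by linarith)
      have : 0 ≤ A ^ (1 / 2 : ℝ) * r ^ (-(1 / 2) : ℝ) := by positivity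
      linarith
    · subst h
      have h1 : K ^ ((2 : ℝ) - 3 / 2) ≤ (A / r) ^ ((2 : ℝ) - 3 / 2) := Real.rpow_le_rpow hK.le hKA (by norm_num)
      have h2 : (A / r) ^ ((2 : ℝ) - 3 / 2) = A ^ (1 / 2 : ℝ) * r ^ (-(1 / 2) : ℝ) := by
        rw [Real.div_rpow hA hr.le, Real.rpow_neg hr.le, div_eq_mul_inv]
        norm_num
      have : 0 ≤ κ ^ ((2 : ℝ) - 3 / 2) := by positivity
      linarith
  calc K ^ s * (C / (δ * K)) ^ (3 / 2 : ℝ) = C ^ (3 / 2 : ℝ) * ((K ^ s * K ^ (-(3 / 2) : ℝ)) * δ ^ (-(3 / 2) : ℝ)) := by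
        rw [e1]; ring
    _ ≤ _ := by rw [e2]; gcongr

/-- the quadruples -/
noncomputable def quad (n : ℕ) : Finset ((Fin (n + 2) × Fin (n + 2)) × (Fin (n + 2) × Fin (n + 2))) :=
  Finset.univ.filter fun t => t.1.1 ≠ t.1.2 ∧ t.2.1 ≠ t.1.1 ∧ t.2.1 ≠ t.1.2 ∧ t.2.1 ≠ t.2.2

/-- the bound for the fibre over a configuration -/
theorem fibre {n : ℕ} (hn : 1 ≤ n) (m : Fin (n + 2) → ℝ) (hm : ∀ i, 0 < m i) (E κ : ℝ) (hE : E < 0)
    (hκ : 0 < κ) (C₀ : ℝ) (hC₀ : 0 < C₀) (NW : Set (Cfg (n + 2) × Cfg (n + 2)))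
    (hfib : ∀ q : Cfg (n + 2), (∀ i j, i ≠ j → q i ≠ q j) → ∑ i, m i • q i = 0 →
      ∀ a b : Fin (n + 2), a ≠ b → ∀ δ : ℝ, 0 < δ → (∀ i j, P2 a b i j → δ ≤ ‖q i - q j‖) →
      0 < pot m q + E →
      volume {P : Fin (n + 1) → R3 | kin m (mom P) ≤ 1 ∧
          (q, Real.sqrt ((pot m q + E) / kin m (mom P)) • mom P) ∈ NW} ≤
        ENNReal.ofReal ((C₀ / (δ * (pot m q + E))) ^ (3 / 2 : ℝ)) *
          volume {P : Fin (n + 1) → R3 | kin m (mom P) ≤ 1})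
    (R : ℝ) (s : ℝ) (hs : 2 ≤ s) (q : Fin (n + 2) → R3) (hq : ∀ i j, i ≠ j → q i ≠ q j)
    (hbox : ∀ i, ‖q i‖ ≤ R) (hK : 0 < pot m q + E) (hcut : pot m q + E ≤ κ ∨ s = 2) :
    ENNReal.ofReal ((pot m q + E) ^ s) *
      volume {P : Fin (n + 1) → R3 | kin m (mom P) ≤ 1 ∧ st m E (q, P) ∈ NW} ≤
    ∑ t ∈ quad n, ENNReal.ofReal (C₀ ^ (3 / 2 : ℝ)) * volume {P : Fin (n + 1) → R3 | kin m (mom P) ≤ 1} *
      ((∏ i, B R (q i)) * (hh (κ ^ (s - 3 / 2)) ((∑ i, ∑ j, m i * m j / 2) ^ (1 / 2 : ℝ))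
        ((∑ i, ∑ j, m i * m j / 2) / (-E)) (q t.1.1 - q t.1.2) * gg (q t.2.1 - q t.2.2))) := by
  classical
  set A : ℝ := ∑ i, ∑ j, m i * m j / 2 with hA
  have hA0 : 0 ≤ A := Finset.sum_nonneg fun i _ => Finset.sum_nonneg fun j _ => by
    have := hm i; have := hm j; positivity
  have hM : 0 < ∑ i, m i := Finset.sum_pos (fun i _ => hm i) ⟨0, Finset.mem_univ 0⟩
  -- the closest pair
  obtain ⟨⟨a, b⟩, hab, hmin⟩ := Finset.exists_min_image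
    (Finset.univ.filter fun p : Fin (n + 2) × Fin (n + 2) => p.1 ≠ p.2) (fun p => ‖q p.1 - q p.2‖)
    ⟨(0, 1), by
      rw [Finset.mem_filter]
      refine ⟨Finset.mem_univ _, fun h => ?_⟩
      have := congrArg Fin.val h
      simp at this⟩
  rw [Finset.mem_filter] at hab
  replace hab : a ≠ b := hab.2
  have hmin' : ∀ i j, i ≠ j → ‖q a - q b‖ ≤ ‖q i - q j‖ := fun i j hij =>
    hmin (i, j) (Finset.mem_filter.mpr ⟨Finset.mem_univ _, hij⟩)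
  -- the closest other pair
  obtain ⟨k₀, hk₀⟩ : ∃ k : Fin (n + 2), k ∉ ({a, b} : Finset (Fin (n + 2))) := by
    obtain ⟨k, -, hk⟩ := Finset.exists_mem_notMem_of_card_lt_card (s := ({a, b} : Finset (Fin (n + 2))))
      (t := Finset.univ) (by
        rw [Finset.card_univ, Fintype.card_fin]
        have := Finset.card_le_two (a := a) (b := b)
        omega)
    exact ⟨k, hk⟩
  simp only [Finset.mem_insert, Finset.mem_singleton, not_or] at hk₀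
  obtain ⟨⟨k, l⟩, hkl, hmin2⟩ := Finset.exists_min_image
    (Finset.univ.filter fun p : Fin (n + 2) × Fin (n + 2) => p.1 ≠ a ∧ p.1 ≠ b ∧ p.1 ≠ p.2)
    (fun p => ‖q p.1 - q p.2‖) ⟨(k₀, a), Finset.mem_filter.mpr ⟨Finset.mem_univ _, hk₀.1, hk₀.2, hk₀.1⟩⟩
  rw [Finset.mem_filter] at hkl
  obtain ⟨-, hka, hkb, hkl⟩ := hkl
  simp only at hka hkb hkl
  set δ : ℝ := ‖q k - q l‖ with hδ
  have hδ0 : 0 < δ := norm_pos_iff.mpr (sub_ne_zero.mpr (hq k l hkl))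
  have hP2 : ∀ i j, P2 a b i j → δ ≤ ‖q i - q j‖ := by
    rintro i j ⟨hij, h1, h2⟩
    by_cases hi : i ≠ a ∧ i ≠ b
    · exact hmin2 (i, j) (Finset.mem_filter.mpr ⟨Finset.mem_univ _, hi.1, hi.2, hij⟩)
    · have hj : j ≠ a ∧ j ≠ b := by
        by_cases hia : i = a
        · subst hia
          exact ⟨hij.symm, fun h => h1 ⟨rfl, h⟩⟩
        · have hib : i = b := by
            by_contra h
            exact hi ⟨hia, h⟩
          subst hib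
          exact ⟨fun h => h2 ⟨rfl, h⟩, hij.symm⟩
      rw [norm_sub_rev]
      exact hmin2 (j, i) (Finset.mem_filter.mpr ⟨Finset.mem_univ _, hj.1, hj.2, hij.symm⟩)
  set r : ℝ := ‖q a - q b‖ with hr
  have hr0 : 0 < r := norm_pos_iff.mpr (sub_ne_zero.mpr (hq a b hab))
  have hpot := pot_le m hm q r hr0 hmin'
  rw [← hA] at hpot
  have hKA : pot m q + E ≤ A / r := by linarith
  have hrρ : r < A / (-E) := by
    rw [lt_div_iff₀ (by linarith)]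
    have h1 : -E < A / r := by linarith
    rw [lt_div_iff₀ hr0] at h1
    linarith
  -- the fibre
  have hq' := hfib (fun i => q i - ctr m q) (fun i j hij h => hq i j hij (sub_left_injective h))
    (ctr_zero m hM q) a b hab δ hδ0 (fun i j h => by
      rw [sub_sub_sub_cancel_right]
      exact hP2 i j h) (by rw [pot_shift]; exact hK)
  rw [pot_shift] at hq'
  have hvol : volume {P : Fin (n + 1) → R3 | kin m (mom P) ≤ 1 ∧ st m E (q, P) ∈ NW} ≤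
      ENNReal.ofReal ((C₀ / (δ * (pot m q + E))) ^ (3 / 2 : ℝ)) *
          volume {P : Fin (n + 1) → R3 | kin m (mom P) ≤ 1} := hq'
  have hpow := powers C₀ (pot m q + E) δ r s κ A hC₀ hK hδ0 hr0 hs hκ hA0 hcut hKA
  set W := volume {P : Fin (n + 1) → R3 | kin m (mom P) ≤ 1} with hW
  have hterm : ENNReal.ofReal ((pot m q + E) ^ s) *
      volume {P : Fin (n + 1) → R3 | kin m (mom P) ≤ 1 ∧ st m E (q, P) ∈ NW} ≤
      ENNReal.ofReal (C₀ ^ (3 / 2 : ℝ)) * W *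
      ((∏ i, B R (q i)) * (hh (κ ^ (s - 3 / 2)) (A ^ (1 / 2 : ℝ)) (A / (-E)) (q a - q b) *
        gg (q k - q l))) := by
    have hB : ∏ i, B R (q i) = 1 := Finset.prod_eq_one fun i _ => by
      rw [B, indicator_of_mem (mem_closedBall_zero_iff.mpr (hbox i))]
      rfl
    have hh1 : hh (κ ^ (s - 3 / 2)) (A ^ (1 / 2 : ℝ)) (A / (-E)) (q a - q b) =
        ENNReal.ofReal (κ ^ (s - 3 / 2) + A ^ (1 / 2 : ℝ) * r ^ (-(1 / 2) : ℝ)) := by
      rw [hh, indicator_of_mem (mem_ball_zero_iff.mpr hrρ)]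
    have hg1 : gg (q k - q l) = ENNReal.ofReal (δ ^ (-(3 / 2) : ℝ)) := rfl
    rw [hB, one_mul, hh1, hg1]
    calc ENNReal.ofReal ((pot m q + E) ^ s) *
          volume {P : Fin (n + 1) → R3 | kin m (mom P) ≤ 1 ∧ st m E (q, P) ∈ NW}
        ≤ ENNReal.ofReal ((pot m q + E) ^ s) *
          (ENNReal.ofReal ((C₀ / (δ * (pot m q + E))) ^ (3 / 2 : ℝ)) * W) := by gcongr
      _ = ENNReal.ofReal ((pot m q + E) ^ s * (C₀ / (δ * (pot m q + E))) ^ (3 / 2 : ℝ)) * W := by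
          rw [← mul_assoc, ← ENNReal.ofReal_mul (by positivity)]
      _ ≤ ENNReal.ofReal (C₀ ^ (3 / 2 : ℝ) * ((κ ^ (s - 3 / 2) + A ^ (1 / 2 : ℝ) * r ^ (-(1 / 2) : ℝ)) *
            δ ^ (-(3 / 2) : ℝ))) * W := by gcongr
      _ = _ := by
          rw [ENNReal.ofReal_mul (by positivity), ENNReal.ofReal_mul (by positivity)]
          ring
  refine hterm.trans ?_
  refine Finset.single_le_sum (f := fun t : (Fin (n + 2) × Fin (n + 2)) × (Fin (n + 2) × Fin (n + 2)) =>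
    ENNReal.ofReal (C₀ ^ (3 / 2 : ℝ)) * W * ((∏ i, B R (q i)) * (hh (κ ^ (s - 3 / 2)) (A ^ (1 / 2 : ℝ))
      (A / (-E)) (q t.1.1 - q t.1.2) * gg (q t.2.1 - q t.2.2)))) (fun _ _ => zero_le) (a := ((a, b), (k, l))) ?_
  rw [quad, Finset.mem_filter]
  exact ⟨Finset.mem_univ _, hab, hka, hkb, hkl⟩

end Pool.Agent.Q85.ND
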