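import Pool.Agent.Q85.ND.Up2

/-! The upper bound for the Liouville measure of the nonwandering states. -/

set_option autoImplicit false

open MeasureTheory ENNReal Set Metric
open Pool.Agent.Y516.NW (pot kin mom NonW Surf IsFl Free Cfg P2)

namespace Pool.Agent.Q85.ND

theorem upper {n : ℕ} (hn : 1 ≤ n) (m : Fin (n + 2) → ℝ) (hm : ∀ i, 0 < m i) (E κ : ℝ) (hE : E < 0)
    (hκ : 0 < κ) (C₀ : ℝ) (hC₀ : 0 < C₀) (s : ℝ) (hs : 2 ≤ s) :
    ∃ C : ℝ, ∀ NW : Set (Cfg (n + 2) × Cfg (n + 2)), IsClosed NW →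
    (∀ q : Cfg (n + 2), (∀ i j, i ≠ j → q i ≠ q j) → ∑ i, m i • q i = 0 →
      ∀ a b : Fin (n + 2), a ≠ b → ∀ δ : ℝ, 0 < δ → (∀ i j, P2 a b i j → δ ≤ ‖q i - q j‖) →
      0 < pot m q + E →
      volume {P : Fin (n + 1) → R3 | kin m (mom P) ≤ 1 ∧
          (q, Real.sqrt ((pot m q + E) / kin m (mom P)) • mom P) ∈ NW} ≤
        ENNReal.ofReal ((C₀ / (δ * (pot m q + E))) ^ (3 / 2 : ℝ)) *
          volume {P : Fin (n + 1) → R3 | kin m (mom P) ≤ 1}) →
    ∀ R : ℝ, 0 < R →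
      ∫⁻ z in {z : (Fin (n + 2) → R3) × (Fin (n + 1) → R3) | (∀ i, ‖z.1 i‖ ≤ R) ∧ 0 < pot m z.1 + E ∧
        (pot m z.1 + E ≤ κ ∨ s = 2) ∧ kin m (mom z.2) ≤ 1 ∧ st m E z ∈ NW},
        ENNReal.ofReal ((pot m z.1 + E) ^ s) ≤ ENNReal.ofReal (C * R ^ (3 * ((n : ℝ) + 1) - 3 / 2)) := by
  classical
  obtain ⟨c₀, hc₀, hg⟩ := three_halves
  set A : ℝ := ∑ i, ∑ j, m i * m j / 2 with hA
  set h : R3 → ℝ≥0∞ := hh (κ ^ (s - 3 / 2)) (A ^ (1 / 2 : ℝ)) (A / (-E)) with hh'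
  have hA0 : 0 ≤ A := Finset.sum_nonneg fun i _ => Finset.sum_nonneg fun j _ => by
    have := hm i; have := hm j; positivity
  set H : ℝ≥0∞ := ∫⁻ x, h x with hH
  have hHfin : H < ⊤ := by
    rw [hH, hh', show (fun x => hh (κ ^ (s - 3 / 2)) (A ^ (1 / 2 : ℝ)) (A / (-E)) x) =
      indicator (ball 0 (A / (-E))) fun x => ENNReal.ofReal (κ ^ (s - 3 / 2) + A ^ (1 / 2 : ℝ) *
        ‖x‖ ^ (-(1 / 2) : ℝ)) from rfl, lintegral_indicator measurableSet_ball]
    exact one_half _ _ _ (by positivity)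
  set W := volume {P : Fin (n + 1) → R3 | kin m (mom P) ≤ 1} with hW
  have hWfin : W < ⊤ := (kin_vol m hm).2
  set v : ℝ≥0∞ := volume (ball (0 : R3) 1) with hv
  have hvfin : v < ⊤ := measure_ball_lt_top
  set M : ℝ≥0∞ := (quad n).card * (ENNReal.ofReal (C₀ ^ (3 / 2 : ℝ)) * W * (ENNReal.ofReal c₀ * (H * v ^ n))) with hM
  have hMfin : M ≠ ⊤ := by
    rw [hM]
    refine ENNReal.mul_ne_top (ENNReal.natCast_ne_top _) (ENNReal.mul_ne_top (ENNReal.mul_ne_top
      ENNReal.ofReal_ne_top hWfin.ne) (ENNReal.mul_ne_top ENNReal.ofReal_ne_top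
      (ENNReal.mul_ne_top hHfin.ne (ENNReal.pow_ne_top hvfin.ne))))
  refine ⟨M.toReal, fun NW hNW hfib R hR => ?_⟩
  have hpm := pot_meas m
  have hkm : Measurable fun P : Fin (n + 1) → R3 => kin m (mom P) := ((kin_cont m).comp mom_cont).measurable
  have hst := st_meas m E
  set D : Set ((Fin (n + 2) → R3) × (Fin (n + 1) → R3)) := {z | (∀ i, ‖z.1 i‖ ≤ R) ∧ 0 < pot m z.1 + E ∧
        (pot m z.1 + E ≤ κ ∨ s = 2) ∧ kin m (mom z.2) ≤ 1 ∧ st m E z ∈ NW} with hD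
  have hDm : MeasurableSet D := by
    have h1 : MeasurableSet {z : (Fin (n + 2) → R3) × (Fin (n + 1) → R3) | ∀ i, ‖z.1 i‖ ≤ R} := by
      have : {z : (Fin (n + 2) → R3) × (Fin (n + 1) → R3) | ∀ i, ‖z.1 i‖ ≤ R} =
          ⋂ i, {z : (Fin (n + 2) → R3) × (Fin (n + 1) → R3) | ‖z.1 i‖ ≤ R} := by ext z; simp
      rw [this]
      exact MeasurableSet.iInter fun i => measurableSet_le (by fun_prop) measurable_const
    have h2 : MeasurableSet {z : (Fin (n + 2) → R3) × (Fin (n + 1) → R3) | 0 < pot m z.1 + E} :=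
      measurableSet_lt measurable_const (by fun_prop)
    have h3a : MeasurableSet {z : (Fin (n + 2) → R3) × (Fin (n + 1) → R3) | pot m z.1 + E ≤ κ} :=
      measurableSet_le (by fun_prop) measurable_const
    have h3 : MeasurableSet {z : (Fin (n + 2) → R3) × (Fin (n + 1) → R3) | pot m z.1 + E ≤ κ ∨ s = 2} :=
      h3a.union (MeasurableSet.const (s = 2))
    have h4 : MeasurableSet {z : (Fin (n + 2) → R3) × (Fin (n + 1) → R3) | kin m (mom z.2) ≤ 1} :=
      measurableSet_le (hkm.comp measurable_snd) measurable_const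
    exact h1.inter (h2.inter (h3.inter (h4.inter (hst hNW.measurableSet))))
  have hfm : Measurable fun z : (Fin (n + 2) → R3) × (Fin (n + 1) → R3) => ENNReal.ofReal ((pot m z.1 + E) ^ s) := by
    fun_prop
  rw [← lintegral_indicator hDm, Measure.volume_eq_prod, lintegral_prod _ (hfm.indicator hDm).aemeasurable]
  have hbound : ∀ᵐ q : Fin (n + 2) → R3, ∫⁻ P : Fin (n + 1) → R3,
      D.indicator (fun z => ENNReal.ofReal ((pot m z.1 + E) ^ s)) (q, P) ≤
      ∑ t ∈ quad n, ENNReal.ofReal (C₀ ^ (3 / 2 : ℝ)) * W *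
        ((∏ i, B R (q i)) * (h (q t.1.1 - q t.1.2) * gg (q t.2.1 - q t.2.2))) := by
    filter_upwards [ae_free] with q hq
    by_cases hc : (∀ i, ‖q i‖ ≤ R) ∧ 0 < pot m q + E ∧ (pot m q + E ≤ κ ∨ s = 2)
    · have h1 := fibre hn m hm E κ hE hκ C₀ hC₀ NW hfib R s hs q hq hc.1 hc.2.1 hc.2.2
      refine le_trans (le_of_eq ?_) h1
      have hSm : MeasurableSet {P : Fin (n + 1) → R3 | kin m (mom P) ≤ 1 ∧ st m E (q, P) ∈ NW} :=
        (measurableSet_le hkm measurable_const).inter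
          ((hst.comp measurable_prodMk_left) hNW.measurableSet)
      rw [← lintegral_indicator_one hSm, ← lintegral_const_mul _ (measurable_one.indicator hSm)]
      refine lintegral_congr fun P => ?_
      by_cases hP : P ∈ {P : Fin (n + 1) → R3 | kin m (mom P) ≤ 1 ∧ st m E (q, P) ∈ NW}
      · rw [indicator_of_mem hP, indicator_of_mem (show (q, P) ∈ D from ⟨hc.1, hc.2.1, hc.2.2, hP⟩)]
        simp
      · rw [indicator_of_notMem hP, indicator_of_notMem (show (q, P) ∉ D from fun h => hP h.2.2.2), mul_zero]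
    · refine le_trans (le_of_eq ?_) (zero_le)
      have : (fun P : Fin (n + 1) → R3 => D.indicator (fun z => ENNReal.ofReal ((pot m z.1 + E) ^ s)) (q, P)) =
          fun _ => 0 := by
        funext P
        rw [indicator_of_notMem]
        rintro ⟨h1, h2, h3, -⟩
        exact hc ⟨h1, h2, h3⟩
      rw [this, lintegral_zero]
  refine (lintegral_mono_ae hbound).trans ?_
  have hhm : Measurable h := hh_meas _ _ _
  have hBm := B_meas R
  have hggm := gg_meas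
  rw [lintegral_finsetSum _ (fun t _ => by fun_prop)]
  have hterm : ∀ t ∈ quad n, ∫⁻ q : Fin (n + 2) → R3, ENNReal.ofReal (C₀ ^ (3 / 2 : ℝ)) * W *
        ((∏ i, B R (q i)) * (h (q t.1.1 - q t.1.2) * gg (q t.2.1 - q t.2.2))) ≤
      (ENNReal.ofReal (C₀ ^ (3 / 2 : ℝ)) * W * (ENNReal.ofReal c₀ * (H * v ^ n))) *
        ENNReal.ofReal (R ^ (3 * ((n : ℝ) + 1) - 3 / 2)) := by
    intro t ht
    rw [quad, Finset.mem_filter] at ht
    obtain ⟨-, h1, h2, h3, h4⟩ := ht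
    rw [lintegral_const_mul _ (by fun_prop)]
    have h5 := pair_le t.1.1 t.1.2 t.2.1 t.2.2 h1 h2 h3 h4 h gg hhm hggm R
    have h6 : ∫⁻ x in closedBall (0 : R3) (2 * R), gg x ≤ ENNReal.ofReal (c₀ * R ^ (3 / 2 : ℝ)) := hg R hR
    have h7 : volume (closedBall (0 : R3) R) = ENNReal.ofReal (R ^ 3) * v := by
      rw [Measure.addHaar_closedBall _ _ hR.le, finrank_euclideanSpace, Fintype.card_fin]
    calc ENNReal.ofReal (C₀ ^ (3 / 2 : ℝ)) * W * ∫⁻ q : Fin (n + 2) → R3,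
          (∏ i, B R (q i)) * (h (q t.1.1 - q t.1.2) * gg (q t.2.1 - q t.2.2))
        ≤ ENNReal.ofReal (C₀ ^ (3 / 2 : ℝ)) * W * (ENNReal.ofReal (c₀ * R ^ (3 / 2 : ℝ)) *
          (H * (ENNReal.ofReal (R ^ 3) * v) ^ n)) := by
          rw [h7] at h5
          gcongr
          exact h5.trans (by gcongr)
      _ = (ENNReal.ofReal (C₀ ^ (3 / 2 : ℝ)) * W * (ENNReal.ofReal c₀ * (H * v ^ n))) *
          (ENNReal.ofReal (R ^ (3 / 2 : ℝ)) * ENNReal.ofReal (R ^ 3) ^ n) := by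
          rw [ENNReal.ofReal_mul hc₀.le, mul_pow]
          ring
      _ = _ := by
          rw [← ENNReal.ofReal_pow (by positivity), ← ENNReal.ofReal_mul (by positivity)]
          congr 2
          rw [← pow_mul, ← Real.rpow_natCast R (3 * n), ← Real.rpow_add hR]
          congr 1
          push_cast
          ring
  refine (Finset.sum_le_sum hterm).trans (le_of_eq ?_)
  rw [Finset.sum_const, nsmul_eq_mul, ← mul_assoc, ← hM, ENNReal.ofReal_mul ENNReal.toReal_nonneg,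
    ENNReal.ofReal_toReal hMfin]

end Pool.Agent.Q85.ND
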